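import Pool.Agent.X125.PD.Heat

/-!
The low modes.
-/

noncomputable section

namespace Pool.Agent.X125.PD

open Real MeasureTheory UnitAddTorus Metric
open scoped ComplexConjugate

/-- The frequency `(1,0)`. -/
def k1 : Fin 2 → ℤ := ![1, 0]
/-- The frequency `(-1,0)`. -/
def k2 : Fin 2 → ℤ := ![-1, 0]
/-- The frequency `(0,1)`. -/
def k3 : Fin 2 → ℤ := ![0, 1]
/-- The frequency `(0,-1)`. -/
def k4 : Fin 2 → ℤ := ![0, -1]

/-- `2 cos (2 π y)`. -/
def qv : H := E k3 + E k4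
/-- `2 cos (2 π x)`. -/
def pv : H := E k1 + E k2

lemma inner_E (l k : Fin 2 → ℤ) : (inner ℂ (E l) (E k) : ℂ) = if l = k then 1 else 0 :=
  (orthonormal_iff_ite.mp (UnitAddTorus.orthonormal_mFourier (d := Fin 2))) l k

lemma kk (k l : Fin 2 → ℤ) : k = l ↔ k 0 = l 0 ∧ k 1 = l 1 := by
  constructor
  · rintro rfl; exact ⟨rfl, rfl⟩
  · rintro ⟨h0, h1⟩
    ext i; fin_cases i
    · exact h0
    · exact h1

lemma nsq_one {l : Fin 2 → ℤ} (h : nsq l = 1) : l = k1 ∨ l = k2 ∨ l = k3 ∨ l = k4 := by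
  unfold nsq at h
  have h0 : (l 0).natAbs ≤ 1 := by nlinarith
  have h1 : (l 1).natAbs ≤ 1 := by nlinarith
  have a : (l 0).natAbs = 0 ∨ (l 0).natAbs = 1 := by omega
  have b : (l 1).natAbs = 0 ∨ (l 1).natAbs = 1 := by omega
  simp only [kk, k1, k2, k3, k4, Matrix.cons_val_zero, Matrix.cons_val_one, Matrix.cons_val_fin_one]
  rcases a with a | a <;> rcases b with b | b <;> rw [a, b] at h <;> norm_num at h <;> omega

lemma sym_zero {l : Fin 2 → ℤ} (h : nsq l ≠ 1) : sym 0 l = 0 := by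
  unfold sym
  split_ifs with h0
  · rfl
  · have := nsq_pos h0
    exact zero_pow (by omega)

lemma sym_one {l : Fin 2 → ℤ} (h : nsq l = 1) : sym 0 l = 1 := by
  unfold sym
  have h0 : l ≠ 0 := by
    rintro rfl
    simp [nsq] at h
  rw [if_neg h0, h]
  simp

lemma cnum (a b : ℝ) : conj ((a : ℂ) / b) = (a : ℂ) / b := by
  rw [map_div₀, Complex.conj_ofReal, Complex.conj_ofReal]
lemma c12 : conj (-1 / 2 : ℂ) = -1 / 2 := by have := cnum (-1) 2; push_cast at this; exact this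
lemma c34 : conj (3 / 4 : ℂ) = 3 / 4 := by have := cnum 3 4; push_cast at this; exact this
lemma c38 : conj (3 / 8 : ℂ) = 3 / 8 := by have := cnum 3 8; push_cast at this; exact this
lemma c316 : conj (3 / 16 : ℂ) = 3 / 16 := by have := cnum 3 16; push_cast at this; exact this

lemma b10 : beta 1 0 = -1 / 2 := beta_one_zero
lemma bm0 : beta (-1) 0 = -1 / 2 := by rw [beta_neg_one, neg_zero, beta_one_zero, c12]
lemma bneg (m : ℤ) (hm : m < 0) : beta 1 m = 0 := beta_one_of_neg hm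
lemma bmpos (m : ℤ) (hm : 0 < m) : beta (-1) m = 0 := by
  rw [beta_neg_one, beta_one_of_neg (by omega), map_zero]
lemma bm1 : beta (-1) (-1) = 3 / 4 := by rw [beta_neg_one, neg_neg, beta_one_one, c34]
lemma bm2 : beta (-1) (-2) = 3 / 8 := by rw [beta_neg_one, neg_neg, beta_one_two, c38]
lemma bm3 : beta (-1) (-3) = 3 / 16 := by rw [beta_neg_one, neg_neg, beta_one_three, c316]

/-- Matrix elements between low modes. -/
def M (l k : Fin 2 → ℤ) : ℂ := inner ℂ (E l) (comp phi mp_phi (E k))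

lemma M_eq (k l : Fin 2 → ℤ) :
    M l k = conj (beta (-l 1) (-k 1 - l 0)) * beta (-k 1) (l 1 - 3 * k 1 - k 0) := matrix_one k l

lemma M13 : M k1 k3 = 0 := by
  rw [M_eq]; simp [k1, k3, beta_zero]
lemma M23 : M k2 k3 = 3 / 16 := by
  rw [M_eq]; simp [k2, k3, beta_zero, bm3]
lemma M33 : M k3 k3 = 9 / 32 := by
  rw [M_eq]
  have a1 : -k3 1 = -1 := by simp [k3]
  have a2 : -k3 1 - k3 0 = -1 := by simp [k3]
  have a3 : k3 1 - 3 * k3 1 - k3 0 = -2 := by simp [k3]
  rw [a2, a3, a1, bm1, bm2, c34]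
  norm_num
lemma M43 : M k4 k3 = 0 := by
  rw [M_eq]; simp [k4, k3]
  left; exact bneg _ (by norm_num)
lemma M14 : M k1 k4 = 3 / 16 := by
  rw [M_eq]; simp [k1, k4, beta_zero, beta_one_three]
lemma M24 : M k2 k4 = 0 := by
  rw [M_eq]; simp [k2, k4, beta_zero]
lemma M34 : M k3 k4 = 0 := by
  rw [M_eq]; simp [k3, k4]
  left; exact bmpos _ (by norm_num)
lemma M44 : M k4 k4 = 9 / 32 := by
  rw [M_eq]
  have a1 : -k4 1 = 1 := by simp [k4]
  have a2 : -k4 1 - k4 0 = 1 := by simp [k4]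
  have a3 : k4 1 - 3 * k4 1 - k4 0 = 2 := by simp [k4]
  rw [a2, a3, a1, beta_one_one, beta_one_two, c34]
  norm_num
lemma M11 : M k1 k1 = 0 := by
  rw [M_eq]; simp [k1, beta_zero]
lemma M21 : M k2 k1 = 0 := by
  rw [M_eq]; simp [k2, k1, beta_zero]
lemma M31 : M k3 k1 = -1 / 2 := by
  rw [M_eq]
  have a1 : -k3 1 = -1 := by simp [k3]
  have a2 : -k1 1 - k3 0 = 0 := by simp [k3, k1]
  have a3 : k3 1 - 3 * k1 1 - k1 0 = 0 := by simp [k3, k1]
  have a4 : -k1 1 = 0 := by simp [k1]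
  rw [a2, a3, a1, a4, bm0, beta_zero, c12]
  norm_num
lemma M41 : M k4 k1 = 0 := by
  rw [M_eq]; simp [k4, k1, beta_zero]
lemma M12 : M k1 k2 = 0 := by
  rw [M_eq]; simp [k1, k2, beta_zero]
lemma M22 : M k2 k2 = 0 := by
  rw [M_eq]; simp [k2, beta_zero]
lemma M32 : M k3 k2 = 0 := by
  rw [M_eq]; simp [k3, k2, beta_zero]
lemma M42 : M k4 k2 = -1 / 2 := by
  rw [M_eq]
  have a1 : -k4 1 = 1 := by simp [k4]
  have a2 : -k2 1 - k4 0 = 0 := by simp [k4, k2]
  have a3 : k4 1 - 3 * k2 1 - k2 0 = 0 := by simp [k4, k2]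
  have a4 : -k2 1 = 0 := by simp [k2]
  rw [a2, a3, a1, a4, b10, beta_zero, c12]
  norm_num

lemma ne_lemmas : k1 ≠ k2 ∧ k1 ≠ k3 ∧ k1 ≠ k4 ∧ k2 ≠ k3 ∧ k2 ≠ k4 ∧ k3 ≠ k4 := by
  refine ⟨?_, ?_, ?_, ?_, ?_, ?_⟩ <;> simp [kk, k1, k2, k3, k4]

lemma nsqs : nsq k1 = 1 ∧ nsq k2 = 1 ∧ nsq k3 = 1 ∧ nsq k4 = 1 := by
  refine ⟨?_, ?_, ?_, ?_⟩ <;> simp [nsq, k1, k2, k3, k4]

/-- A vector whose low-mode coefficients are given. -/
lemma D0_eq {h w : H} (hw : ∀ l, nsq l ≠ 1 → (inner ℂ (E l) w : ℂ) = 0)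
    (h1 : (inner ℂ (E k1) h : ℂ) = inner ℂ (E k1) w) (h2 : (inner ℂ (E k2) h : ℂ) = inner ℂ (E k2) w)
    (h3 : (inner ℂ (E k3) h : ℂ) = inner ℂ (E k3) w) (h4 : (inner ℂ (E k4) h : ℂ) = inner ℂ (E k4) w) :
    D 0 h = w := by
  apply ext_coeff
  intro l
  rw [D_coeff (by simp)]
  by_cases hl : nsq l = 1
  · rw [sym_one hl, one_mul]
    rcases nsq_one hl with rfl | rfl | rfl | rfl
    · exact h1
    · exact h2
    · exact h3
    · exact h4
  · rw [sym_zero hl, zero_mul, hw l hl]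

lemma low_zero {l : Fin 2 → ℤ} (hl : nsq l ≠ 1) : l ≠ k1 ∧ l ≠ k2 ∧ l ≠ k3 ∧ l ≠ k4 := by
  obtain ⟨a, b, c, d⟩ := nsqs
  refine ⟨?_, ?_, ?_, ?_⟩ <;> rintro rfl <;> contradiction

lemma D0_qv : D 0 (comp phi mp_phi qv) = (9 / 32 : ℂ) • qv + (3 / 16 : ℂ) • pv := by
  obtain ⟨n12, n13, n14, n23, n24, n34⟩ := ne_lemmas
  have m13 : (inner ℂ (E k1) (comp phi mp_phi (E k3)) : ℂ) = 0 := M13
  have m23 : (inner ℂ (E k2) (comp phi mp_phi (E k3)) : ℂ) = 3 / 16 := M23
  have m33 : (inner ℂ (E k3) (comp phi mp_phi (E k3)) : ℂ) = 9 / 32 := M33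
  have m43 : (inner ℂ (E k4) (comp phi mp_phi (E k3)) : ℂ) = 0 := M43
  have m14 : (inner ℂ (E k1) (comp phi mp_phi (E k4)) : ℂ) = 3 / 16 := M14
  have m24 : (inner ℂ (E k2) (comp phi mp_phi (E k4)) : ℂ) = 0 := M24
  have m34 : (inner ℂ (E k3) (comp phi mp_phi (E k4)) : ℂ) = 0 := M34
  have m44 : (inner ℂ (E k4) (comp phi mp_phi (E k4)) : ℂ) = 9 / 32 := M44
  apply D0_eq
  · intro l hl
    obtain ⟨l1, l2, l3, l4⟩ := low_zero hl
    simp only [qv, pv, inner_add_right, inner_smul_right, inner_E, l1, l2, l3, l4, if_false]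
    simp
  · simp only [qv, pv, map_add, inner_add_right, inner_smul_right, inner_E, m13, m14, n12, n13, n14, if_false,
      if_true]
    simp
  · simp only [qv, pv, map_add, inner_add_right, inner_smul_right, inner_E, m23, m24, n12.symm, n23, n24,
      if_false, if_true]
    simp
  · simp only [qv, pv, map_add, inner_add_right, inner_smul_right, inner_E, m33, m34, n13.symm, n23.symm,
      n34, if_false, if_true]
    simp
  · simp only [qv, pv, map_add, inner_add_right, inner_smul_right, inner_E, m43, m44, n14.symm, n24.symm,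
      n34.symm, if_false, if_true]
    simp

lemma D0_pv : D 0 (comp phi mp_phi pv) = (-1 / 2 : ℂ) • qv := by
  obtain ⟨n12, n13, n14, n23, n24, n34⟩ := ne_lemmas
  have m11 : (inner ℂ (E k1) (comp phi mp_phi (E k1)) : ℂ) = 0 := M11
  have m21 : (inner ℂ (E k2) (comp phi mp_phi (E k1)) : ℂ) = 0 := M21
  have m31 : (inner ℂ (E k3) (comp phi mp_phi (E k1)) : ℂ) = -1 / 2 := M31
  have m41 : (inner ℂ (E k4) (comp phi mp_phi (E k1)) : ℂ) = 0 := M41
  have m12 : (inner ℂ (E k1) (comp phi mp_phi (E k2)) : ℂ) = 0 := M12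
  have m22 : (inner ℂ (E k2) (comp phi mp_phi (E k2)) : ℂ) = 0 := M22
  have m32 : (inner ℂ (E k3) (comp phi mp_phi (E k2)) : ℂ) = 0 := M32
  have m42 : (inner ℂ (E k4) (comp phi mp_phi (E k2)) : ℂ) = -1 / 2 := M42
  apply D0_eq
  · intro l hl
    obtain ⟨l1, l2, l3, l4⟩ := low_zero hl
    simp only [qv, inner_add_right, inner_smul_right, inner_E, l3, l4, if_false]
    simp
  · simp only [qv, pv, map_add, inner_add_right, inner_smul_right, inner_E, m11, m12, n12, n13, n14, if_false,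
      if_true]
    simp
  · simp only [qv, pv, map_add, inner_add_right, inner_smul_right, inner_E, m21, m22, n12.symm, n23, n24,
      if_false, if_true]
    simp
  · simp only [qv, pv, map_add, inner_add_right, inner_smul_right, inner_E, m31, m32, n13.symm, n23.symm,
      n34, if_false, if_true]
    simp
  · simp only [qv, pv, map_add, inner_add_right, inner_smul_right, inner_E, m41, m42, n14.symm, n24.symm,
      n34.symm, if_false, if_true]
    simp

/-- The two-dimensional recursion. -/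
def uv : ℕ → ℝ × ℝ
  | 0 => (1, 0)
  | n + 1 => (9 / 32 * (uv n).1 - 1 / 2 * (uv n).2, 3 / 16 * (uv n).1)

lemma X_zero (n : ℕ) : X qv n 0 = ((uv n).1 : ℂ) • qv + ((uv n).2 : ℂ) • pv := by
  induction n with
  | zero => simp [X, uv]
  | succ n ih =>
    change D 0 (comp phi mp_phi (X qv n 0)) = _
    rw [ih, map_add, map_smul, map_smul, map_add, map_smul, map_smul, D0_qv, D0_pv]
    simp only [uv]
    push_cast
    module

lemma uv_lower (n : ℕ) : (1 / 9 : ℝ) ^ n ≤ |(uv n).1| + |(uv n).2| := by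
  induction n with
  | zero => simp [uv]
  | succ n ih =>
    set a := (uv n).1
    set b := (uv n).2
    have e1 : (uv (n + 1)).1 = 9 / 32 * a - 1 / 2 * b := rfl
    have e2 : (uv (n + 1)).2 = 3 / 16 * a := rfl
    set a' := (uv (n + 1)).1
    set b' := (uv (n + 1)).2
    have ha : a = 16 / 3 * b' := by linarith
    have hb : b = 3 * b' - 2 * a' := by linarith
    have h1 : |a| = 16 / 3 * |b'| := by rw [ha, abs_mul]; norm_num
    have h2 : |b| ≤ 3 * |b'| + 2 * |a'| := by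
      rw [hb]
      refine (abs_sub _ _).trans ?_
      rw [abs_mul, abs_mul]; norm_num
    have h3 := abs_nonneg a'
    have h4 := abs_nonneg b'
    rw [pow_succ]
    linarith

lemma inner_qq : (inner ℂ qv qv : ℂ) = 2 := by
  obtain ⟨n12, n13, n14, n23, n24, n34⟩ := ne_lemmas
  simp only [qv, inner_add_right, inner_add_left, inner_E, n34, n34.symm, if_false, if_true]
  norm_num

lemma inner_qp : (inner ℂ qv pv : ℂ) = 0 := by
  obtain ⟨n12, n13, n14, n23, n24, n34⟩ := ne_lemmas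
  simp only [qv, pv, inner_add_right, inner_add_left, inner_E, n13.symm, n14.symm, n23.symm, n24.symm, if_false]
  norm_num

lemma inner_pq : (inner ℂ pv qv : ℂ) = 0 := by
  obtain ⟨n12, n13, n14, n23, n24, n34⟩ := ne_lemmas
  simp only [qv, pv, inner_add_right, inner_add_left, inner_E, n13, n14, n23, n24, if_false]
  norm_num

lemma inner_pp : (inner ℂ pv pv : ℂ) = 2 := by
  obtain ⟨n12, n13, n14, n23, n24, n34⟩ := ne_lemmas
  simp only [pv, inner_add_right, inner_add_left, inner_E, n12, n12.symm, if_false, if_true]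
  norm_num

lemma norm_qv : ‖qv‖ = √2 := by
  rw [← Real.sqrt_sq (norm_nonneg qv), ← @inner_self_eq_norm_sq ℂ, inner_qq]
  norm_num

lemma norm_pv : ‖pv‖ = √2 := by
  rw [← Real.sqrt_sq (norm_nonneg pv), ← @inner_self_eq_norm_sq ℂ, inner_pp]
  norm_num

lemma G_zero_q (n : ℕ) : G qv qv n 0 = 2 * ((uv n).1 : ℂ) := by
  unfold G
  rw [X_zero, inner_add_right, inner_smul_right, inner_smul_right, inner_qq, inner_qp]; ring

lemma G_zero_p (n : ℕ) : G qv pv n 0 = 2 * ((uv n).2 : ℂ) := by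
  unfold G
  rw [X_zero, inner_add_right, inner_smul_right, inner_smul_right, inner_pq, inner_pp]; ring

/-- For each `n` one of the two scalar functions is not small at the origin. -/
lemma G_lower (n : ℕ) : ∃ g : H, ‖g‖ = √2 ∧ (1 / 9 : ℝ) ^ n ≤ ‖G qv g n 0‖ := by
  have h := uv_lower n
  rcases le_total |(uv n).2| |(uv n).1| with h1 | h1
  · refine ⟨qv, norm_qv, ?_⟩
    rw [G_zero_q, norm_mul, Complex.norm_real, Real.norm_eq_abs]
    norm_num at h ⊢
    linarith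
  · refine ⟨pv, norm_pv, ?_⟩
    rw [G_zero_p, norm_mul, Complex.norm_real, Real.norm_eq_abs]
    norm_num at h ⊢
    linarith

lemma mean_qv : (inner ℂ (E 0) qv : ℂ) = 0 := by
  have h3 : (0 : Fin 2 → ℤ) ≠ k3 := by simp [kk, k3]
  have h4 : (0 : Fin 2 → ℤ) ≠ k4 := by simp [kk, k4]
  simp only [qv, inner_add_right, inner_E, h3, h4, if_false]
  norm_num

end Pool.Agent.X125.PD
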