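import Pool.Agent.X125.PD.Main

/-!
Translation to statements about functions.
-/

noncomputable section

namespace Pool.Agent.X125.PD

open Real MeasureTheory UnitAddTorus Metric
open scoped ComplexConjugate ContDiff

local instance : MeasureSpace UnitAddCircle := ⟨AddCircle.haarAddCircle⟩

local instance : Measure.IsAddHaarMeasure (volume : Measure UnitAddCircle) :=
  inferInstanceAs (Measure.IsAddHaarMeasure AddCircle.haarAddCircle)

local instance : IsProbabilityMeasure (volume : Measure UnitAddCircle) :=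
  inferInstanceAs (IsProbabilityMeasure AddCircle.haarAddCircle)

lemma norm_eq_integral (f : H) : ‖f‖ = √(∫ x, ‖f x‖ ^ 2) := by
  have h1 : (inner ℂ f f : ℂ) = ((∫ x, ‖f x‖ ^ 2 : ℝ) : ℂ) := by
    rw [MeasureTheory.L2.inner_def, ← integral_complex_ofReal]
    apply integral_congr_ae
    filter_upwards with x
    rw [inner_self_eq_norm_sq_to_K]
    simp
  have h2 : ‖f‖ ^ 2 = ∫ x, ‖f x‖ ^ 2 := by
    rw [← @inner_self_eq_norm_sq ℂ, h1]
    simp
  rw [← h2, Real.sqrt_sq (norm_nonneg _)]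

lemma coeff_congr {f g : T2 → ℂ} (h : f =ᵐ[volume] g) (k : Fin 2 → ℤ) :
    mFourierCoeff f k = mFourierCoeff g k := by
  unfold mFourierCoeff
  apply integral_congr_ae
  filter_upwards [h] with x hx
  rw [hx]

/-- The mixing estimate for functions. -/
lemma mixing_fun {α β : ℝ} {h : ℝ → ℝ} (hm : StronglyMixing phi mp_phi α β h) (n : ℕ) {f g : T2 → ℂ}
    (hf : MemLp f 2 volume) (hg : MemLp g 2 volume)
    (hf0 : mFourierCoeff f 0 = 0) (hg0 : mFourierCoeff g 0 = 0)
    (hfs : Summable fun k : Fin 2 → ℤ => eig k ^ α * ‖mFourierCoeff f k‖ ^ 2)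
    (hgs : Summable fun k : Fin 2 → ℤ => eig k ^ β * ‖mFourierCoeff g k‖ ^ 2) :
    ‖∫ x, f (phi^[n] x) * conj (g x)‖ ≤ h n * √(∑' k : Fin 2 → ℤ, eig k ^ α * ‖mFourierCoeff f k‖ ^ 2) *
      √(∑' k : Fin 2 → ℤ, eig k ^ β * ‖mFourierCoeff g k‖ ^ 2) := by
  have ef : ∀ k, mFourierCoeff (hf.toLp f : T2 → ℂ) k = mFourierCoeff f k :=
    fun k => coeff_congr (hf.coeFn_toLp) k
  have eg : ∀ k, mFourierCoeff (hg.toLp g : T2 → ℂ) k = mFourierCoeff g k :=
    fun k => coeff_congr (hg.coeFn_toLp) k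
  have key := hm n (hf.toLp f) (hg.toLp g) ⟨by rw [ef]; exact hf0, by simp only [ef]; exact hfs⟩
    ⟨by rw [eg]; exact hg0, by simp only [eg]; exact hgs⟩
  unfold sobNorm at key
  simp only [ef, eg] at key
  refine le_trans (le_of_eq ?_) key
  congr 1
  rw [MeasureTheory.L2.inner_def]
  apply integral_congr_ae
  have h1 := Lp.coeFn_compMeasurePreserving (hf.toLp f) (mp_phi.iterate n)
  have h2 := (mp_phi.iterate n).quasiMeasurePreserving.ae_eq_comp (hf.coeFn_toLp)
  filter_upwards [h1, h2, hg.coeFn_toLp] with x a b c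
  rw [a, RCLike.inner_apply, c, b]
  rfl

lemma coeff_pulsed {ν : ℝ} (hν : 0 < ν) (n : ℕ) (f : H) (k : Fin 2 → ℤ) :
    mFourierCoeff (pulsed phi mp_phi ν (n + 1) f : T2 → ℂ) k =
      ((Real.exp (-(ν * eig k)) : ℝ) : ℂ) *
        mFourierCoeff ((pulsed phi mp_phi ν n f : T2 → ℂ) ∘ phi) k := by
  have h1 : pulsed phi mp_phi ν (n + 1) f = heat ν (comp phi mp_phi (pulsed phi mp_phi ν n f)) := by
    unfold pulsed
    rw [Function.iterate_succ_apply']
    rfl
  rw [h1, coeff_eq, heat_coeff hν.le, ← coeff_eq]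
  congr 1
  exact coeff_congr (comp_ae phi mp_phi _) k

/-- The function `2 cos (2 π y)`. -/
def q0 (x : T2) : ℝ := 2 * (e 1 (x 1)).re

lemma continuous_q0 : Continuous q0 := by
  unfold q0
  exact continuous_const.mul (Complex.continuous_re.comp ((continuous_e 1).comp (continuous_apply 1)))

lemma q0_ae : (qv : T2 → ℂ) =ᵐ[volume] fun x => (q0 x : ℂ) := by
  have h : (qv : T2 → ℂ) =ᵐ[volume] fun x => (E k3 : T2 → ℂ) x + (E k4 : T2 → ℂ) x :=
    Lp.coeFn_add (E k3) (E k4)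
  filter_upwards [h, coeFn_mFourierLp 2 k3, coeFn_mFourierLp 2 k4] with x a b c
  rw [a]
  change ((E k3 : T2 → ℂ) x + (E k4 : T2 → ℂ) x) = _
  rw [b, c, mFourier_eq, mFourier_eq]
  have h4 : k4 = - k3 := by
    rw [kk]; simp [k3, k4]
  rw [h4, ee_neg]
  have h3 : ee k3 x = e 1 (x 1) := by simp [ee, k3, e_zero]
  rw [h3, Complex.add_conj]
  unfold q0
  push_cast
  ring

end Pool.Agent.X125.PD
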