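import Mathlib

/-!
A quantitative uniqueness lemma: a bounded analytic function on the unit disc which is small at
many separated points of a segment is small at the origin.
-/

namespace Pool.Agent.X125.PD

open Complex Metric Set Filter Topology

lemma blaschke_ratio {x r : ℝ} (hx0 : 0 < x) (hxr : x < r) (hr1 : r < 1) {w : ℂ} (hw : ‖w‖ = r) :
    ‖1 - (x : ℂ) * w‖ * (r - x) ≤ (1 - x * r) * ‖w - x‖ := by
  have h1 : 0 ≤ ‖1 - (x : ℂ) * w‖ * (r - x) := by
    apply mul_nonneg (norm_nonneg _); linarith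
  have hxr1 : 0 < 1 - x * r := by nlinarith
  have h2 : 0 ≤ (1 - x * r) * ‖w - x‖ := by positivity
  rw [← abs_of_nonneg h1, ← abs_of_nonneg h2, ← sq_le_sq, mul_pow, mul_pow]
  have e1 : ‖1 - (x : ℂ) * w‖ ^ 2 = 1 - 2 * x * w.re + x ^ 2 * r ^ 2 := by
    rw [← Complex.normSq_eq_norm_sq, Complex.normSq_apply]
    have hw2 : w.re * w.re + w.im * w.im = r ^ 2 := by
      rw [← Complex.normSq_apply, Complex.normSq_eq_norm_sq, hw]
    simp
    nlinarith [hw2]
  have e2 : ‖w - x‖ ^ 2 = r ^ 2 - 2 * x * w.re + x ^ 2 := by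
    rw [← Complex.normSq_eq_norm_sq, Complex.normSq_apply]
    have hw2 : w.re * w.re + w.im * w.im = r ^ 2 := by
      rw [← Complex.normSq_apply, Complex.normSq_eq_norm_sq, hw]
    simp
    nlinarith [hw2]
  rw [e1, e2]
  have hre : w.re ≤ r := by
    calc w.re ≤ |w.re| := le_abs_self _
      _ ≤ ‖w‖ := Complex.abs_re_le_norm w
      _ = r := hw
  have h3 : 0 ≤ (2 * x * r - 2 * x * w.re) * ((1 - x ^ 2) * (1 - r ^ 2)) := by
    apply mul_nonneg
    · nlinarith
    · apply mul_nonneg <;> nlinarith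
  nlinarith [h3]

/-- Dividing out a Blaschke factor. -/
lemma divide {x : ℝ} (hx0 : 0 < x) (hx1 : x < 1) {M : ℝ} {g : ℂ → ℂ}
    (hg : DifferentiableOn ℂ g (ball 0 1)) (hM : ∀ z ∈ ball (0 : ℂ) 1, ‖g z‖ ≤ M) :
    ∃ h : ℂ → ℂ, DifferentiableOn ℂ h (ball 0 1) ∧ (∀ z ∈ ball (0 : ℂ) 1, ‖h z‖ ≤ M + ‖g x‖) ∧
      ∀ z, (g z - g x) * (1 - x * z) = h z * (z - x) := by
  have hxb : (x : ℂ) ∈ ball (0 : ℂ) 1 := by
    simp [abs_of_pos hx0, hx1]
  have hnhds : ball (0 : ℂ) 1 ∈ 𝓝 (x : ℂ) := isOpen_ball.mem_nhds hxb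
  have hd : DifferentiableOn ℂ (dslope g x) (ball 0 1) :=
    (Complex.differentiableOn_dslope hnhds).2 hg
  have hh : DifferentiableOn ℂ (fun z => dslope g x z * (1 - x * z)) (ball 0 1) := by
    apply hd.mul
    fun_prop
  have hform : ∀ z, (g z - g x) * (1 - x * z) = dslope g x z * (1 - x * z) * (z - x) := by
    intro z
    have := sub_smul_dslope g (x : ℂ) z
    rw [← this, smul_eq_mul]; ring
  refine ⟨fun z => dslope g x z * (1 - x * z), hh, ?_, hform⟩
  intro z hz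
  have hz1 : ‖z‖ < 1 := by simpa using hz
  set M' := M + ‖g x‖ with hM'
  have hMnn : 0 ≤ M := (norm_nonneg _).trans (hM _ hxb)
  have hM'nn : 0 ≤ M' := by positivity
  set r0 := max ‖z‖ x with hr0
  have hr01 : r0 < 1 := max_lt hz1 hx1
  have key : ∀ r ∈ Ioo r0 1, ‖dslope g x z * (1 - x * z)‖ ≤ M' * ((1 - x * r) / (r - x)) := by
    intro r hr
    have hzr : ‖z‖ < r := (le_max_left _ _).trans_lt hr.1
    have hxr : x < r := (le_max_right _ _).trans_lt hr.1
    have hr0' : 0 < r := hx0.trans hxr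
    refine Complex.norm_le_of_forall_mem_frontier_norm_le (U := ball (0 : ℂ) r) isBounded_ball
      (f := fun z => dslope g x z * (1 - x * z)) ?_ ?_ ?_
    · refine DifferentiableOn.diffContOnCl (hh.mono ?_)
      rw [closure_ball _ hr0'.ne']
      exact closedBall_subset_ball hr.2
    · intro w hw
      rw [frontier_ball _ hr0'.ne'] at hw
      have hwr : ‖w‖ = r := by simpa using hw
      have hwb : w ∈ ball (0 : ℂ) 1 := by simp [hwr, hr.2]
      have hwx : 0 < ‖w - x‖ := by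
        rw [norm_pos_iff, sub_ne_zero]
        rintro rfl
        have : ‖(x : ℂ)‖ = x := by simp [abs_of_pos hx0]
        linarith [hwr ▸ this]
      have e1 : ‖dslope g x w * (1 - x * w)‖ * ‖w - x‖ = ‖g w - g x‖ * ‖1 - (x : ℂ) * w‖ := by
        rw [← norm_mul, ← norm_mul, ← hform w]
      have e2 : ‖g w - g x‖ ≤ M' := (norm_sub_le _ _).trans (by rw [hM']; linarith [hM w hwb])
      have e3 := blaschke_ratio hx0 hxr hr.2 hwr
      have hrx : 0 < r - x := by linarith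
      have e4 : ‖dslope g x w * (1 - x * w)‖ * ‖w - x‖ ≤ (M' * ((1 - x * r) / (r - x))) * ‖w - x‖ := by
        rw [e1]
        calc ‖g w - g x‖ * ‖1 - (x : ℂ) * w‖ ≤ M' * ‖1 - (x : ℂ) * w‖ := by gcongr
          _ ≤ M' * ((1 - x * r) * ‖w - x‖ / (r - x)) := by
              gcongr
              rw [le_div_iff₀ hrx]; exact e3
          _ = _ := by ring
      exact le_of_mul_le_mul_right e4 hwx
    · exact subset_closure (by simpa using hzr)
  have hlim : Tendsto (fun r : ℝ => M' * ((1 - x * r) / (r - x))) (𝓝[Ioo r0 1] 1)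
      (𝓝 (M' * ((1 - x * 1) / (1 - x)))) := by
    apply ContinuousAt.continuousWithinAt
    have : (1 : ℝ) - x ≠ 0 := by linarith
    have h1 : ContinuousAt (fun r : ℝ => (1 - x * r)) 1 := by fun_prop
    have h2 : ContinuousAt (fun r : ℝ => (r - x)) 1 := by fun_prop
    exact continuousAt_const.mul (h1.div h2 this)
  have hval : M' * ((1 - x * 1) / (1 - x)) = M' := by
    have : (1 : ℝ) - x ≠ 0 := by linarith
    field_simp
  rw [hval] at hlim
  have : (𝓝[Ioo r0 1] (1 : ℝ)).NeBot := by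
    rw [← mem_closure_iff_nhdsWithin_neBot, closure_Ioo hr01.ne]
    exact ⟨hr01.le, le_rfl⟩
  exact ge_of_tendsto hlim (eventually_nhdsWithin_of_forall key)

/-- The constants in the induction. -/
lemma disc_small_aux {b δ : ℝ} (hb0 : 0 < b) (hb1 : b < 1) (hδ : 0 < δ) (hδ1 : δ ≤ 1) :
    ∀ (N : ℕ) (x : Fin N → ℝ) (M ε : ℝ) (g : ℂ → ℂ), (∀ i, 0 < x i ∧ x i ≤ b) →
      (∀ i j, i ≠ j → δ ≤ |x i - x j|) → DifferentiableOn ℂ g (ball 0 1) →
      (∀ z ∈ ball (0 : ℂ) 1, ‖g z‖ ≤ M) → 0 ≤ ε → (∀ i, ‖g (x i)‖ ≤ ε) →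
      ‖g 0‖ ≤ b ^ N * M + ε * (4 / δ) ^ N := by
  intro N
  induction N with
  | zero =>
    intro x M ε g hx hsep hg hM hε hsm
    have := hM 0 (by simp)
    simp; linarith
  | succ N ih =>
    intro x M ε g hx hsep hg hM hε hsm
    have hx0 := (hx 0).1
    have hxb := (hx 0).2
    have hx1 : x 0 < 1 := hxb.trans_lt hb1
    obtain ⟨h, hhd, hhM, hhf⟩ := divide hx0 hx1 hg hM
    have hMnn : 0 ≤ M := (norm_nonneg _).trans (hM 0 (by simp))
    have hh1 := ih (fun i => x i.succ) (M + ε) (2 * ε / δ) h (fun i => hx i.succ)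
      (fun i j hij => hsep _ _ (by simpa using hij)) hhd
      (fun z hz => (hhM z hz).trans (by linarith [hsm 0])) (by positivity) (by
        intro i
        have hsp := hsep i.succ 0 (by simp)
        have hf := hhf (x i.succ)
        have hn : ‖h (x i.succ)‖ * |x i.succ - x 0| =
            ‖g (x i.succ) - g (x 0)‖ * ‖1 - ((x 0 : ℝ) : ℂ) * (x i.succ : ℂ)‖ := by
          rw [← norm_mul, hf, norm_mul]
          congr 1
          rw [← Complex.ofReal_sub, Complex.norm_real, Real.norm_eq_abs]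
        have h1 : ‖1 - ((x 0 : ℝ) : ℂ) * (x i.succ : ℂ)‖ ≤ 1 := by
          rw [← Complex.ofReal_mul, ← Complex.ofReal_one, ← Complex.ofReal_sub, Complex.norm_real,
            Real.norm_eq_abs, abs_le]
          have a1 := (hx i.succ).1
          have a2 := (hx i.succ).2
          constructor <;> nlinarith
        have h2 : ‖g (x i.succ) - g (x 0)‖ ≤ 2 * ε :=
          (norm_sub_le _ _).trans (by linarith [hsm i.succ, hsm 0])
        rw [le_div_iff₀ hδ]
        calc ‖h (x i.succ)‖ * δ ≤ ‖h (x i.succ)‖ * |x i.succ - x 0| := by gcongr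
          _ = ‖g (x i.succ) - g (x 0)‖ * ‖1 - ((x 0 : ℝ) : ℂ) * (x i.succ : ℂ)‖ := hn
          _ ≤ (2 * ε) * 1 := by gcongr
          _ = 2 * ε := by ring)
    have h0 := hhf 0
    have h0' : g 0 = g (x 0) - h 0 * x 0 := by
      have : g 0 - g (x 0) = - (h 0 * x 0) := by simpa using h0
      linear_combination this
    have hb : ‖g 0‖ ≤ ε + ‖h 0‖ * b := by
      rw [h0']
      refine (norm_sub_le _ _).trans (add_le_add (hsm 0) ?_)
      rw [norm_mul, Complex.norm_real, Real.norm_eq_abs, abs_of_pos hx0]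
      gcongr
    have h4 : 4 ≤ 4 / δ := by rw [le_div_iff₀ hδ]; linarith
    have hK1 : 1 ≤ (4 / δ) ^ N := one_le_pow₀ (by linarith)
    have hbN : b ^ N ≤ 1 := pow_le_one₀ hb0.le hb1.le
    have hbNn : 0 ≤ b ^ N := by positivity
    calc ‖g 0‖ ≤ ε + ‖h 0‖ * b := hb
      _ ≤ ε + (b ^ N * (M + ε) + 2 * ε / δ * (4 / δ) ^ N) * b := by gcongr
      _ = b ^ (N + 1) * M + (ε + ε * b ^ N * b + (2 * ε / δ * (4 / δ) ^ N) * b) := by ring
      _ ≤ b ^ (N + 1) * M + (ε + ε * 1 * 1 + (2 * ε / δ * (4 / δ) ^ N) * 1) := by gcongr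
      _ ≤ b ^ (N + 1) * M + ε * (4 / δ) ^ (N + 1) := by
          have : ε * (4 / δ) ^ (N + 1) = (2 * ε / δ * (4 / δ) ^ N) + (2 * ε / δ * (4 / δ) ^ N) := by
            rw [pow_succ]; ring
          rw [this]
          have h5 : ε + ε * 1 * 1 ≤ 2 * ε / δ * (4 / δ) ^ N := by
            calc ε + ε * 1 * 1 = 2 * ε / 1 * 1 := by ring
              _ ≤ 2 * ε / δ * (4 / δ) ^ N := by gcongr
          linarith

/-- If `G` is analytic in the unit disc, bounded by `M`, and of modulus at most `ε` on the segment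
`[a, b]`, then `|G 0| ≤ b ^ N * M + ε * (4 N / (b - a)) ^ N` for all `N`. -/
lemma disc_small {a b : ℝ} (ha : 0 < a) (hab : a < b) (hb1 : b < 1) {M ε : ℝ} {G : ℂ → ℂ}
    (hG : DifferentiableOn ℂ G (ball 0 1)) (hM : ∀ z ∈ ball (0 : ℂ) 1, ‖G z‖ ≤ M)
    (hε : ∀ t : ℝ, a ≤ t → t ≤ b → ‖G t‖ ≤ ε) (N : ℕ) (hN : 0 < N) :
    ‖G 0‖ ≤ b ^ N * M + ε * (4 * N / (b - a)) ^ N := by
  have hNr : (0 : ℝ) < N := by exact_mod_cast hN
  have hN1 : (1 : ℝ) ≤ N := by exact_mod_cast hN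
  have hba : 0 < b - a := by linarith
  have hε0 : 0 ≤ ε := (norm_nonneg _).trans (hε a le_rfl hab.le)
  set δ := (b - a) / N with hδ
  have hδ0 : 0 < δ := by positivity
  have hδ1 : δ ≤ 1 := by
    rw [hδ, div_le_one hNr]; linarith
  have h4 : 4 * N / (b - a) = 4 / δ := by rw [hδ]; field_simp
  rw [h4]
  have hrange : ∀ i : Fin N, a ≤ a + δ * i ∧ a + δ * i ≤ b := by
    intro i
    have hi : (i : ℝ) ≤ N := by exact_mod_cast i.2.le
    constructor
    · have : 0 ≤ δ * i := by positivity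
      linarith
    · have : δ * i ≤ δ * N := by gcongr
      have h2 : δ * N = b - a := by rw [hδ]; field_simp
      linarith
  refine disc_small_aux (ha.trans hab) hb1 hδ0 hδ1 N (fun i => a + δ * i) M ε G ?_ ?_ hG hM hε0 ?_
  · intro i
    exact ⟨ha.trans_le (hrange i).1, (hrange i).2⟩
  · intro i j hij
    have h1 : (a + δ * i) - (a + δ * j) = δ * ((i : ℝ) - j) := by ring
    rw [h1, abs_mul, abs_of_pos hδ0]
    have h2 : (1 : ℝ) ≤ |(i : ℝ) - j| := by
      have : ((i : ℕ) : ℤ) - ((j : ℕ) : ℤ) ≠ 0 := by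
        intro h
        apply hij
        ext
        omega
      have h3 : (1 : ℤ) ≤ |((i : ℕ) : ℤ) - ((j : ℕ) : ℤ)| := Int.one_le_abs this
      have h4 : ((1 : ℤ) : ℝ) ≤ ((|((i : ℕ) : ℤ) - ((j : ℕ) : ℤ)| : ℤ) : ℝ) := by exact_mod_cast h3
      simpa using h4
    nlinarith
  · intro i
    exact hε _ (hrange i).1 (hrange i).2

end Pool.Agent.X125.PD
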