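import Pool.Agent.X125.PD.Torus

/-!
Frequencies under the hyperbolic automorphism; bounds on the matrix elements.
-/

noncomputable section

namespace Pool.Agent.X125.PD

open Real MeasureTheory

/-- The `ℓ¹` norm of a frequency. -/
def n1 (p : Fin 2 → ℤ) : ℝ := |(p 0 : ℝ)| + |(p 1 : ℝ)|

lemma n1_nonneg (p : Fin 2 → ℤ) : 0 ≤ n1 p := by unfold n1; positivity

lemma one_le_n1 {p : Fin 2 → ℤ} (hp : p ≠ 0) : 1 ≤ n1 p := by
  unfold n1
  have : p 0 ≠ 0 ∨ p 1 ≠ 0 := by
    by_contra h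
    push Not at h
    apply hp
    ext i; fin_cases i
    · exact h.1
    · exact h.2
  rcases this with h | h
  · have h1 : (1 : ℤ) ≤ |p 0| := Int.one_le_abs h
    have h2 : ((1 : ℤ) : ℝ) ≤ ((|p 0| : ℤ) : ℝ) := by exact_mod_cast h1
    push_cast at h2
    have := abs_nonneg (p 1 : ℝ)
    linarith
  · have h1 : (1 : ℤ) ≤ |p 1| := Int.one_le_abs h
    have h2 : ((1 : ℤ) : ℝ) ≤ ((|p 1| : ℤ) : ℝ) := by exact_mod_cast h1
    push_cast at h2
    have := abs_nonneg (p 0 : ℝ)
    linarith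

/-- The expanding eigenvalue. -/
def lam : ℝ := (3 + √5) / 2

/-- The contracting eigenvalue. -/
def lm : ℝ := (3 - √5) / 2

lemma sq5 : √5 ^ 2 = 5 := Real.sq_sqrt (by norm_num)

lemma sqrt5_bounds : 2 ≤ √5 ∧ √5 ≤ 3 := by
  constructor
  · rw [show (2 : ℝ) = √4 by rw [show (4 : ℝ) = 2 ^ 2 by norm_num, Real.sqrt_sq (by norm_num)]]
    exact Real.sqrt_le_sqrt (by norm_num)
  · rw [show (3 : ℝ) = √9 by rw [show (9 : ℝ) = 3 ^ 2 by norm_num, Real.sqrt_sq (by norm_num)]]
    exact Real.sqrt_le_sqrt (by norm_num)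

lemma lam_sq : lam ^ 2 = 3 * lam - 1 := by
  unfold lam; have := sq5; nlinarith

lemma lam_lm : lam * lm = 1 := by
  unfold lam lm; have := sq5; nlinarith

lemma lam_add : lam + lm = 3 := by unfold lam lm; ring

lemma lam_bounds : 2 ≤ lam ∧ lam ≤ 3 := by
  unfold lam; have := sqrt5_bounds; constructor <;> linarith

lemma lm_bounds : 0 ≤ lm ∧ lm ≤ 1 := by
  unfold lm; have := sqrt5_bounds; constructor <;> linarith

/-- The expanding functional. -/
def el (p : Fin 2 → ℤ) : ℝ := p 0 + lam * p 1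

/-- The contracting functional. -/
def el' (p : Fin 2 → ℤ) : ℝ := p 0 + lm * p 1

lemma el_tau (p : Fin 2 → ℤ) : el (tau p) = lam * el p := by
  have h := lam_sq
  simp only [el, tau, Matrix.cons_val_zero, Matrix.cons_val_one, Matrix.cons_val_fin_one]
  push_cast
  linear_combination (-(p 1 : ℝ)) * h

lemma el_tau_iter (n : ℕ) (p : Fin 2 → ℤ) : el (tau^[n] p) = lam ^ n * el p := by
  induction n generalizing p with
  | zero => simp
  | succ n ih => rw [Function.iterate_succ_apply, ih, el_tau, pow_succ]; ring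

lemma el_mul (p : Fin 2 → ℤ) : el p * el' p = ((p 0 ^ 2 + 3 * p 0 * p 1 + p 1 ^ 2 : ℤ) : ℝ) := by
  have h1 := lam_lm
  have h2 := lam_add
  unfold el el'
  push_cast
  linear_combination (p 0 : ℝ) * p 1 * h2 + (p 1 : ℝ) ^ 2 * h1

lemma form_ne_zero {p : Fin 2 → ℤ} (hp : p ≠ 0) : p 0 ^ 2 + 3 * p 0 * p 1 + p 1 ^ 2 ≠ 0 := by
  intro h
  have h5 : (2 * p 0 + 3 * p 1) ^ 2 = 5 * p 1 ^ 2 := by linear_combination 4 * h
  by_cases h1 : p 1 = 0
  · rw [h1] at h
    apply hp
    have : p 0 = 0 := by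
      have : p 0 ^ 2 = 0 := by linear_combination h
      exact pow_eq_zero_iff (two_ne_zero) |>.1 this
    ext i; fin_cases i
    · exact this
    · exact h1
  · have hirr : Irrational (√5) := by
      have := Nat.Prime.irrational_sqrt (show Nat.Prime 5 by norm_num)
      exact_mod_cast this
    apply hirr
    refine ⟨|((2 * p 0 + 3 * p 1 : ℤ) : ℚ)| / |((p 1 : ℤ) : ℚ)|, ?_⟩
    have h1' : (p 1 : ℝ) ≠ 0 := by exact_mod_cast h1
    have h6 : ((2 * p 0 + 3 * p 1 : ℤ) : ℝ) ^ 2 = 5 * (p 1 : ℝ) ^ 2 := by exact_mod_cast h5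
    have h7 : |((2 * p 0 + 3 * p 1 : ℤ) : ℝ)| = √5 * |(p 1 : ℝ)| := by
      rw [← Real.sqrt_sq_eq_abs, h6, Real.sqrt_mul (by norm_num), Real.sqrt_sq_eq_abs]
    have h8 : ((|((2 * p 0 + 3 * p 1 : ℤ) : ℚ)| / |((p 1 : ℤ) : ℚ)| : ℚ) : ℝ) =
        |((2 * p 0 + 3 * p 1 : ℤ) : ℝ)| / |(p 1 : ℝ)| := by push_cast; ring
    rw [h8, h7]
    field_simp

lemma one_le_el_mul {p : Fin 2 → ℤ} (hp : p ≠ 0) : 1 ≤ |el p| * |el' p| := by
  rw [← abs_mul, el_mul, ← Int.cast_abs]
  exact_mod_cast Int.one_le_abs (form_ne_zero hp)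

lemma abs_el_le (p : Fin 2 → ℤ) : |el p| ≤ 3 * n1 p := by
  have h := lam_bounds
  unfold el n1
  refine (abs_add_le _ _).trans ?_
  rw [abs_mul, abs_of_nonneg (by linarith [h.1] : 0 ≤ lam)]
  have a := abs_nonneg (p 0 : ℝ)
  have b := abs_nonneg (p 1 : ℝ)
  nlinarith [h.2]

lemma abs_el'_le (p : Fin 2 → ℤ) : |el' p| ≤ n1 p := by
  have h := lm_bounds
  unfold el' n1
  refine (abs_add_le _ _).trans ?_
  rw [abs_mul, abs_of_nonneg h.1]
  have a := abs_nonneg (p 0 : ℝ)
  have b := abs_nonneg (p 1 : ℝ)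
  nlinarith [h.2]

lemma growth_n1 {p : Fin 2 → ℤ} (hp : p ≠ 0) (n : ℕ) : (2 : ℝ) ^ n ≤ 3 * (n1 p * n1 (tau^[n] p)) := by
  have h1 := one_le_el_mul hp
  have h2 := abs_el_le (tau^[n] p)
  have h3 := abs_el'_le p
  rw [el_tau_iter, abs_mul, abs_pow, abs_of_nonneg (by linarith [lam_bounds.1] : 0 ≤ lam)] at h2
  have h4 : (2 : ℝ) ^ n ≤ lam ^ n := by
    have := lam_bounds.1
    gcongr
  have hn := n1_nonneg p
  have hn' := n1_nonneg (tau^[n] p)
  calc (2 : ℝ) ^ n ≤ lam ^ n * 1 := by linarith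
    _ ≤ lam ^ n * (|el p| * |el' p|) := by
        have : 0 ≤ lam ^ n := by have := lam_bounds.1; positivity
        gcongr
    _ = (lam ^ n * |el p|) * |el' p| := by ring
    _ ≤ (3 * n1 (tau^[n] p)) * n1 p := by gcongr
    _ = _ := by ring

lemma tau_sub (p q : Fin 2 → ℤ) : tau (p - q) = tau p - tau q := by
  ext i; fin_cases i <;> simp [tau] <;> ring

lemma tau_iter_sub (n : ℕ) (p q : Fin 2 → ℤ) : tau^[n] (p - q) = tau^[n] p - tau^[n] q := by
  induction n generalizing p q with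
  | zero => rfl
  | succ n ih => rw [Function.iterate_succ_apply, tau_sub, ih, Function.iterate_succ_apply,
      Function.iterate_succ_apply]

/-- The cone. -/
lemma tau_cone (n : ℕ) (p : Fin 2 → ℤ) (h1 : 0 < p 1) (h2 : p 0 ≤ 0) (h3 : -p 1 ≤ p 0) :
    0 < (tau^[n] p) 1 := by
  induction n generalizing p with
  | zero => exact h1
  | succ n ih =>
    rw [Function.iterate_succ_apply]
    apply ih
    · simp [tau]; linarith
    · simp [tau]; linarith
    · simp [tau]; linarith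

lemma tau_pos (n : ℕ) (p : Fin 2 → ℤ) (h0 : 0 < p 0) (h1 : p 1 = 0) : 0 < (tau^[n + 1] p) 1 := by
  rw [Function.iterate_succ_apply]
  apply tau_cone
  · simp [tau, h1, h0]
  · simp [tau, h1]
  · simp [tau, h1]; linarith

lemma tau_inj (n : ℕ) {p q : Fin 2 → ℤ} (h1 : p 1 = q 1) (h2 : (tau^[n + 1] p) 1 = (tau^[n + 1] q) 1) :
    p = q := by
  have h0 : p 0 = q 0 := by
    rcases lt_trichotomy (p 0) (q 0) with h | h | h
    · exfalso
      have := tau_pos n (q - p) (by simp; linarith) (by simp [h1])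
      rw [tau_iter_sub, Pi.sub_apply] at this
      linarith
    · exact h
    · exfalso
      have := tau_pos n (p - q) (by simp; linarith) (by simp [h1])
      rw [tau_iter_sub, Pi.sub_apply] at this
      linarith
  ext i; fin_cases i
  · exact h0
  · exact h1

lemma v_decay (p k : Fin 2 → ℤ) : ‖v p k‖ * n1 p ≤ 6 * n1 k := by
  unfold v
  split_ifs with h
  · have hb := beta_decay (-k 1) (p 0 - k 0)
    have hb1 := beta_norm_le (-k 1) (p 0 - k 0)
    set B := ‖beta (-k 1) (p 0 - k 0)‖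
    have hB : 0 ≤ B := norm_nonneg _
    have e1 : |((-k 1 : ℤ) : ℝ)| = |(k 1 : ℝ)| := by push_cast; rw [abs_neg]
    rw [e1] at hb
    unfold n1
    rw [h]
    have h3 : |(p 0 : ℝ)| ≤ |((p 0 - k 0 : ℤ) : ℝ)| + |(k 0 : ℝ)| := by
      push_cast
      calc |(p 0 : ℝ)| = |((p 0 : ℝ) - k 0) + k 0| := by congr 1; ring
        _ ≤ _ := abs_add_le _ _
    have k0 := abs_nonneg (k 0 : ℝ)
    have k1 := abs_nonneg (k 1 : ℝ)
    calc B * (|(p 0 : ℝ)| + |(k 1 : ℝ)|)
        ≤ B * ((|((p 0 - k 0 : ℤ) : ℝ)| + |(k 0 : ℝ)|) + |(k 1 : ℝ)|) := by gcongr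
      _ = |((p 0 - k 0 : ℤ) : ℝ)| * B + B * (|(k 0 : ℝ)| + |(k 1 : ℝ)|) := by ring
      _ ≤ 5 * |(k 1 : ℝ)| + 1 * (|(k 0 : ℝ)| + |(k 1 : ℝ)|) := by gcongr
      _ ≤ 6 * (|(k 0 : ℝ)| + |(k 1 : ℝ)|) := by linarith
  · have := n1_nonneg k
    simp; linarith

lemma v_zero_left {k : Fin 2 → ℤ} (hk : k ≠ 0) : v 0 k = 0 := by
  unfold v
  split_ifs with h
  · have h1 : k 1 = 0 := by simpa using h.symm
    have h0 : k 0 ≠ 0 := by
      intro h0
      apply hk
      ext i; fin_cases i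
      · exact h0
      · exact h1
    rw [h1, neg_zero, beta_zero]
    simp [h0]
  · rfl

lemma term_bound (n : ℕ) (k l p : Fin 2 → ℤ) (hk : k ≠ 0) :
    ‖v p k * (starRingEnd ℂ) (v (tau^[n] p) l)‖ ≤ 108 * (n1 k * n1 l) * (1 / 2) ^ n := by
  rcases eq_or_ne p 0 with rfl | hp
  · rw [v_zero_left hk]
    have := n1_nonneg k
    have := n1_nonneg l
    simp; positivity
  · rw [norm_mul, Complex.norm_conj]
    have h1 := v_decay p k
    have h2 := v_decay (tau^[n] p) l
    have h3 := growth_n1 hp n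
    have hv1 := norm_nonneg (v p k)
    have hv2 := norm_nonneg (v (tau^[n] p) l)
    have a := n1_nonneg p
    have b := n1_nonneg (tau^[n] p)
    have c := n1_nonneg k
    have d := n1_nonneg l
    have h4 : (‖v p k‖ * ‖v (tau^[n] p) l‖) * (2 : ℝ) ^ n ≤ 108 * (n1 k * n1 l) := by
      calc (‖v p k‖ * ‖v (tau^[n] p) l‖) * (2 : ℝ) ^ n
          ≤ (‖v p k‖ * ‖v (tau^[n] p) l‖) * (3 * (n1 p * n1 (tau^[n] p))) := by gcongr
        _ = 3 * ((‖v p k‖ * n1 p) * (‖v (tau^[n] p) l‖ * n1 (tau^[n] p))) := by ring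
        _ ≤ 3 * ((6 * n1 k) * (6 * n1 l)) := by gcongr
        _ = _ := by ring
    have h2n : (0 : ℝ) < 2 ^ n := by positivity
    rw [one_div, inv_pow, ← div_eq_mul_inv, le_div_iff₀ h2n]
    exact h4

lemma matrix_bound (n : ℕ) (k l : Fin 2 → ℤ) (hk : k ≠ 0) :
    ‖(inner ℂ (E l) (((comp phi mp_phi)^[n]) (E k)) : ℂ)‖ ≤ 108 * (n1 k * n1 l) * (1 / 2) ^ n := by
  rcases n with _ | n
  · simp only [Function.iterate_zero, id_eq, pow_zero, mul_one]
    rw [(orthonormal_iff_ite.mp (UnitAddTorus.orthonormal_mFourier (d := Fin 2))) l k]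
    have hk1 := one_le_n1 hk
    split_ifs with h
    · subst h
      simp; nlinarith
    · have := n1_nonneg l
      simp; positivity
  · have hs := hasSum_matrix (n + 1) k l
    by_cases hex : ∃ p, v p k * (starRingEnd ℂ) (v (tau^[n + 1] p) l) ≠ 0
    · obtain ⟨p, hp⟩ := hex
      have huniq : ∀ q, q ≠ p → v q k * (starRingEnd ℂ) (v (tau^[n + 1] q) l) = 0 := by
        intro q hq
        by_contra hne
        apply hq
        have hne1 := left_ne_zero_of_mul hne
        have hne2 := right_ne_zero_of_mul hne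
        have hp1 := left_ne_zero_of_mul hp
        have hp2 := right_ne_zero_of_mul hp
        have aux : ∀ a b : Fin 2 → ℤ, v a b ≠ 0 → a 1 = b 1 := by
          intro a b h
          by_contra h'
          exact h (by simp [v, h'])
        have aux2 : ∀ a b : Fin 2 → ℤ, (starRingEnd ℂ) (v a b) ≠ 0 → a 1 = b 1 := by
          intro a b h
          exact aux a b (fun h' => h (by rw [h', map_zero]))
        exact tau_inj n ((aux _ _ hne1).trans (aux _ _ hp1).symm) ((aux2 _ _ hne2).trans (aux2 _ _ hp2).symm)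
      rw [hs.unique (hasSum_single p huniq)]
      exact term_bound (n + 1) k l p hk
    · push Not at hex
      have h0 : (fun p => v p k * (starRingEnd ℂ) (v (tau^[n + 1] p) l)) = fun _ => 0 := by
        ext p; exact hex p
      rw [h0] at hs
      rw [hs.unique hasSum_zero, norm_zero]
      have := n1_nonneg k
      have := n1_nonneg l
      positivity

/-- The one-step matrix elements. -/
lemma matrix_one (k l : Fin 2 → ℤ) :
    (inner ℂ (E l) (comp phi mp_phi (E k)) : ℂ) =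
      (starRingEnd ℂ) (beta (-l 1) (-k 1 - l 0)) * beta (-k 1) (l 1 - 3 * k 1 - k 0) := by
  have hs := hasSum_matrix 1 k l
  set p : Fin 2 → ℤ := ![l 1 - 3 * k 1, k 1] with hp
  have huniq : ∀ q, q ≠ p → v q k * (starRingEnd ℂ) (v (tau^[1] q) l) = 0 := by
    intro q hq
    by_contra hne
    apply hq
    have hne1 := left_ne_zero_of_mul hne
    have hne2 := right_ne_zero_of_mul hne
    have h1 : q 1 = k 1 := by
      by_contra h'
      exact hne1 (by simp [v, h'])
    have h2 : (tau^[1] q) 1 = l 1 := by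
      by_contra h'
      exact hne2 (by simp only [v, h', if_false, map_zero])
    have h3 : q 0 + 3 * q 1 = l 1 := by simpa [tau] using h2
    ext i; fin_cases i
    · simp [hp]; linarith
    · simpa [hp] using h1
  have := hs.unique (hasSum_single p huniq)
  rw [Function.iterate_one] at this
  rw [this, mul_comm]
  congr 1
  · congr 1
    rw [Function.iterate_one]
    simp [v, tau, hp]
  · simp [v, hp]

end Pool.Agent.X125.PD
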