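import Mathlib

namespace Pool.Agent.X125.PD

open Filter Topology

lemma growth {a b c γ : ℝ} (ha : 0 < a) (hab : a < b) (hb1 : b < 1) (hc : 0 < c) (hγ : 1 < γ) :
    ∃ n N : ℕ, 1 ≤ n ∧ 0 < N ∧
      b ^ N * 2 + (2 * (1 / a) ^ n * Real.exp (-(c * γ ^ n))) * (4 * N / (b - a)) ^ N
        < (1 / 9 : ℝ) ^ n := by
  have hb0 : 0 < b := ha.trans hab
  have hL : 0 < b - a := by linarith
  obtain ⟨K, hK⟩ := exists_pow_lt_of_lt_one (show (0 : ℝ) < 1 / 18 by norm_num) hb1
  have hK0 : 0 < K := by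
    rcases Nat.eq_zero_or_pos K with h | h
    · subst h; norm_num at hK
    · exact h
  have hK1 : (1 : ℝ) ≤ K := by exact_mod_cast hK0
  set A := Real.log (9 / a)
  set B := 4 * (K : ℝ) * K / (b - a)
  have t2 := (tendsto_pow_const_div_const_pow_of_one_lt 2 hγ).const_mul B
  have t1 := (tendsto_pow_const_div_const_pow_of_one_lt 1 hγ).const_mul A
  have t0 := (tendsto_pow_const_div_const_pow_of_one_lt 0 hγ).const_mul (Real.log 4)
  have t := (t2.add t1).add t0
  simp only [mul_zero, add_zero] at t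
  have hev := (t.eventually (gt_mem_nhds hc)).and (eventually_ge_atTop 2)
  obtain ⟨n, hn, hn2⟩ := hev.exists
  have hγn : 0 < γ ^ n := by positivity
  have hmain : Real.log 4 + A * n + B * n ^ 2 < c * γ ^ n := by
    have h1 : B * ((n : ℝ) ^ 2 / γ ^ n) + A * ((n : ℝ) ^ 1 / γ ^ n) + Real.log 4 * ((n : ℝ) ^ 0 / γ ^ n)
        = (Real.log 4 + A * n + B * n ^ 2) / γ ^ n := by
      field_simp; ring
    rw [h1, div_lt_iff₀ hγn] at hn
    exact hn
  have hnr : (2 : ℝ) ≤ n := by exact_mod_cast hn2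
  refine ⟨n, K * n, by omega, by positivity, ?_⟩
  have hfirst : b ^ (K * n) * 2 ≤ (1 / 9 : ℝ) ^ n * (1 / 2) := by
    rw [pow_mul]
    calc (b ^ K) ^ n * 2 ≤ (1 / 18 : ℝ) ^ n * 2 := by gcongr
      _ = (1 / 9 : ℝ) ^ n * ((1 / 2) ^ n * 2) := by
          rw [← mul_assoc, ← mul_pow]; norm_num
      _ ≤ (1 / 9 : ℝ) ^ n * ((1 / 2) ^ 2 * 2) := by
          have : (1 / 2 : ℝ) ^ n ≤ (1 / 2) ^ 2 := pow_le_pow_of_le_one (by norm_num) (by norm_num) hn2
          gcongr
      _ = _ := by norm_num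
  have hsecond : (2 * (1 / a) ^ n * Real.exp (-(c * γ ^ n))) * (4 * ((K * n : ℕ) : ℝ) / (b - a)) ^ (K * n)
      < (1 / 9 : ℝ) ^ n * (1 / 2) := by
    have e1 : (4 * ((K * n : ℕ) : ℝ) / (b - a)) ^ (K * n) ≤ Real.exp (B * n ^ 2) := by
      have : (4 * ((K * n : ℕ) : ℝ) / (b - a)) ≤ Real.exp (4 * ((K * n : ℕ) : ℝ) / (b - a)) := by
        have := Real.add_one_le_exp (4 * ((K * n : ℕ) : ℝ) / (b - a))
        linarith
      calc (4 * ((K * n : ℕ) : ℝ) / (b - a)) ^ (K * n)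
          ≤ (Real.exp (4 * ((K * n : ℕ) : ℝ) / (b - a))) ^ (K * n) := by
            have h0 : 0 ≤ 4 * ((K * n : ℕ) : ℝ) / (b - a) := by positivity
            gcongr
        _ = Real.exp (B * n ^ 2) := by
            rw [← Real.exp_nat_mul]
            congr 1
            push_cast
            simp only [B]
            ring
    have e2 : (9 / a) ^ n = Real.exp (A * n) := by
      rw [mul_comm, Real.exp_nat_mul, Real.exp_log (by positivity)]
    have e3 : (4 : ℝ) = Real.exp (Real.log 4) := by rw [Real.exp_log (by norm_num)]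
    have e4 : 4 * (9 / a) ^ n * Real.exp (B * n ^ 2) < Real.exp (c * γ ^ n) := by
      rw [e2]
      nth_rw 1 [e3]
      rw [← Real.exp_add, ← Real.exp_add]
      exact Real.exp_lt_exp.2 hmain
    have e5 : 4 * (9 / a) ^ n * Real.exp (B * n ^ 2) * Real.exp (-(c * γ ^ n)) < 1 := by
      rw [Real.exp_neg, ← div_eq_mul_inv, div_lt_one (Real.exp_pos _)]
      exact e4
    have h9 : (0 : ℝ) < (1 / 9) ^ n := by positivity
    calc (2 * (1 / a) ^ n * Real.exp (-(c * γ ^ n))) * (4 * ((K * n : ℕ) : ℝ) / (b - a)) ^ (K * n)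
        ≤ (2 * (1 / a) ^ n * Real.exp (-(c * γ ^ n))) * Real.exp (B * n ^ 2) := by
          gcongr
      _ = ((1 / 9 : ℝ) ^ n * (1 / 2)) * (4 * (9 / a) ^ n * Real.exp (B * n ^ 2) * Real.exp (-(c * γ ^ n))) := by
          have : (1 / 9 : ℝ) ^ n * (9 / a) ^ n = (1 / a) ^ n := by
            rw [← mul_pow]; congr 1; field_simp
          rw [← this]; ring
      _ < ((1 / 9 : ℝ) ^ n * (1 / 2)) * 1 := by
          apply mul_lt_mul_of_pos_left e5; positivity
      _ = _ := by ring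
  linarith

end Pool.Agent.X125.PD
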