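import Pool.Agent.X125.PD.Freq

/-!
Fourier multipliers, the analytic family `D z`, and the heat semigroup.
-/

noncomputable section

namespace Pool.Agent.X125.PD

open Real MeasureTheory UnitAddTorus Metric
open scoped ComplexConjugate

local instance : MeasureSpace UnitAddCircle := ⟨AddCircle.haarAddCircle⟩

local instance : Measure.IsAddHaarMeasure (volume : Measure UnitAddCircle) :=
  inferInstanceAs (Measure.IsAddHaarMeasure AddCircle.haarAddCircle)

local instance : IsProbabilityMeasure (volume : Measure UnitAddCircle) :=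
  inferInstanceAs (IsProbabilityMeasure AddCircle.haarAddCircle)

/-- The Fourier basis. -/
abbrev F : HilbertBasis (Fin 2 → ℤ) ℂ H := mFourierBasis (d := Fin 2)

lemma repr_eq (f : H) (k : Fin 2 → ℤ) : F.repr f k = inner ℂ (E k) f := by
  rw [HilbertBasis.repr_apply_apply, coe_mFourierBasis]

lemma coeff_eq (f : H) (k : Fin 2 → ℤ) : mFourierCoeff f k = inner ℂ (E k) f := by
  rw [← mFourierBasis_repr, repr_eq]

lemma memlp_mul {c : (Fin 2 → ℤ) → ℂ} (hc : ∀ k, ‖c k‖ ≤ 1) (a : lp (fun _ : Fin 2 → ℤ => ℂ) 2) :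
    Memℓp (fun k => c k * a k) 2 := by
  have ha := (lp.memℓp a)
  have hs := ha.summable (by norm_num)
  apply memℓp_gen
  refine Summable.of_nonneg_of_le (fun k => by positivity) (fun k => ?_) hs
  have : ‖c k * a k‖ ≤ ‖a k‖ := by
    rw [norm_mul]
    calc ‖c k‖ * ‖a k‖ ≤ 1 * ‖a k‖ := by gcongr; exact hc k
      _ = _ := one_mul _
  gcongr

/-- Multiplication on `ℓ²`. -/
def mulFun (c : (Fin 2 → ℤ) → ℂ) (hc : ∀ k, ‖c k‖ ≤ 1) (a : lp (fun _ : Fin 2 → ℤ => ℂ) 2) :
    lp (fun _ : Fin 2 → ℤ => ℂ) 2 := ⟨fun k => c k * a k, memlp_mul hc a⟩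

lemma mulFun_apply (c : (Fin 2 → ℤ) → ℂ) (hc : ∀ k, ‖c k‖ ≤ 1) (a : lp (fun _ : Fin 2 → ℤ => ℂ) 2)
    (k : Fin 2 → ℤ) : mulFun c hc a k = c k * a k := rfl

lemma mulFun_norm (c : (Fin 2 → ℤ) → ℂ) (hc : ∀ k, ‖c k‖ ≤ 1) (a : lp (fun _ : Fin 2 → ℤ => ℂ) 2) :
    ‖mulFun c hc a‖ ≤ ‖a‖ := by
  apply lp.norm_mono (by norm_num)
  intro k
  rw [mulFun_apply, norm_mul]
  calc ‖c k‖ * ‖a k‖ ≤ 1 * ‖a k‖ := by gcongr; exact hc k
    _ = _ := one_mul _

/-- The Fourier multiplier with symbol `c`. -/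
def mult (c : (Fin 2 → ℤ) → ℂ) (hc : ∀ k, ‖c k‖ ≤ 1) : H →L[ℂ] H :=
  LinearMap.mkContinuous
    { toFun := fun f => F.repr.symm (mulFun c hc (F.repr f))
      map_add' := fun f g => by
        rw [← map_add]
        congr 1
        ext k
        simp [mulFun_apply, mul_add]
      map_smul' := fun r f => by
        rw [RingHom.id_apply, ← map_smul]
        congr 1
        ext k
        simp [mulFun_apply]
        ring } 1 (by
      intro f
      change ‖F.repr.symm (mulFun c hc (F.repr f))‖ ≤ 1 * ‖f‖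
      rw [LinearIsometryEquiv.norm_map, one_mul]
      refine (mulFun_norm c hc _).trans ?_
      rw [LinearIsometryEquiv.norm_map])

lemma mult_norm (c : (Fin 2 → ℤ) → ℂ) (hc : ∀ k, ‖c k‖ ≤ 1) : ‖mult c hc‖ ≤ 1 :=
  LinearMap.mkContinuous_norm_le _ zero_le_one _

lemma mult_coeff (c : (Fin 2 → ℤ) → ℂ) (hc : ∀ k, ‖c k‖ ≤ 1) (f : H) (k : Fin 2 → ℤ) :
    inner ℂ (E k) (mult c hc f) = c k * inner ℂ (E k) f := by
  rw [← repr_eq, ← repr_eq]
  change F.repr (F.repr.symm (mulFun c hc (F.repr f))) k = _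
  rw [LinearIsometryEquiv.apply_symm_apply]
  rfl

lemma ext_coeff {f g : H} (h : ∀ k, (inner ℂ (E k) f : ℂ) = inner ℂ (E k) g) : f = g := by
  apply F.repr.injective
  ext k
  rw [repr_eq, repr_eq, h]

/-- `|k|²` as a natural number. -/
def nsq (k : Fin 2 → ℤ) : ℕ := (k 0).natAbs ^ 2 + (k 1).natAbs ^ 2

lemma nsq_pos {k : Fin 2 → ℤ} (hk : k ≠ 0) : 1 ≤ nsq k := by
  unfold nsq
  by_contra h
  push Not at h
  apply hk
  have h1 : (k 0).natAbs ^ 2 = 0 := by omega
  have h2 : (k 1).natAbs ^ 2 = 0 := by omega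
  ext i; fin_cases i
  · simpa using h1
  · simpa using h2

/-- The symbol of `D z`. -/
def sym (z : ℂ) (k : Fin 2 → ℤ) : ℂ := if k = 0 then 0 else z ^ (nsq k - 1)

lemma sym_norm {z : ℂ} (hz : ‖z‖ ≤ 1) (k : Fin 2 → ℤ) : ‖sym z k‖ ≤ 1 := by
  unfold sym
  split_ifs
  · simp
  · rw [norm_pow]; exact pow_le_one₀ (norm_nonneg _) hz

/-- The analytic family. -/
def D (z : ℂ) : H →L[ℂ] H := if hz : ‖z‖ ≤ 1 then mult (sym z) (sym_norm hz) else 0

lemma D_norm (z : ℂ) : ‖D z‖ ≤ 1 := by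
  unfold D
  split_ifs
  · exact mult_norm _ _
  · simp

lemma D_coeff {z : ℂ} (hz : ‖z‖ ≤ 1) (f : H) (k : Fin 2 → ℤ) :
    inner ℂ (E k) (D z f) = sym z k * inner ℂ (E k) f := by
  unfold D
  rw [dif_pos hz]
  exact mult_coeff _ _ f k

/-- The symbol of the projection onto `|k|² = m + 1`. -/
def psym (m : ℕ) (k : Fin 2 → ℤ) : ℂ := if nsq k = m + 1 then 1 else 0

lemma psym_norm (m : ℕ) (k : Fin 2 → ℤ) : ‖psym m k‖ ≤ 1 := by
  unfold psym; split_ifs <;> simp

/-- The projection onto `|k|² = m + 1`. -/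
def P (m : ℕ) : H →L[ℂ] H := mult (psym m) (psym_norm m)

lemma summable_P {z : ℂ} (hz : ‖z‖ < 1) : Summable (fun m : ℕ => z ^ m • P m) := by
  apply Summable.of_norm
  refine Summable.of_nonneg_of_le (fun m => norm_nonneg _) (fun m => ?_)
    (summable_geometric_of_lt_one (norm_nonneg z) hz)
  rw [norm_smul, norm_pow]
  calc ‖z‖ ^ m * ‖P m‖ ≤ ‖z‖ ^ m * 1 := by gcongr; exact mult_norm _ _
    _ = _ := mul_one _

lemma D_eq_tsum {z : ℂ} (hz : ‖z‖ < 1) : D z = ∑' m : ℕ, z ^ m • P m := by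
  ext1 f
  apply ext_coeff
  intro k
  rw [D_coeff hz.le]
  have h1 := (summable_P hz).hasSum.mapL (ContinuousLinearMap.apply ℂ H f)
  have h2 := h1.mapL (innerSL ℂ (E k))
  have h3 : HasSum (fun m : ℕ => z ^ m * (psym m k * inner ℂ (E k) f))
      (inner ℂ (E k) ((∑' m : ℕ, z ^ m • P m) f)) := by
    convert! h2 using 1
    ext m
    simp only [ContinuousLinearMap.apply_apply, ContinuousLinearMap.smul_apply, map_smul,
      smul_eq_mul, innerSL_apply_apply]
    rw [P, mult_coeff]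
  by_cases hk : k = 0
  · have h4 : (fun m : ℕ => z ^ m * (psym m k * inner ℂ (E k) f)) = fun _ => 0 := by
      ext m
      have : nsq k ≠ m + 1 := by rw [hk]; simp [nsq]
      simp [psym, this]
    rw [h4] at h3
    rw [h3.unique hasSum_zero]
    simp [sym, hk]
  · have hpos := nsq_pos hk
    have h5 := hasSum_single (f := fun m : ℕ => z ^ m * (psym m k * inner ℂ (E k) f)) (nsq k - 1) (by
      intro m hm
      have : nsq k ≠ m + 1 := by omega
      simp [psym, this])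
    rw [h3.unique h5]
    have : nsq k = nsq k - 1 + 1 := by omega
    simp only [sym, hk, if_false, psym]
    rw [if_pos this, one_mul]

lemma D_differentiableOn : DifferentiableOn ℂ D (ball 0 1) := by
  intro z hz
  have hz1 : ‖z‖ < 1 := by simpa using hz
  obtain ⟨r, hzr, hr1⟩ := exists_between hz1
  have hr0 : 0 ≤ r := (norm_nonneg z).trans hzr.le
  have h1 : DifferentiableOn ℂ (fun w : ℂ => ∑' m : ℕ, w ^ m • P m) (ball 0 r) := by
    refine Complex.differentiableOn_tsum_of_summable_norm (u := fun m => r ^ m)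
      (summable_geometric_of_lt_one hr0 hr1) ?_ isOpen_ball ?_
    · intro m
      apply Differentiable.differentiableOn
      fun_prop
    · intro m w hw
      have hw' : ‖w‖ < r := by simpa using hw
      rw [norm_smul, norm_pow]
      calc ‖w‖ ^ m * ‖P m‖ ≤ r ^ m * 1 := by gcongr; exact mult_norm _ _
        _ = _ := mul_one _
  have h2 : DifferentiableOn ℂ D (ball 0 r) := by
    refine h1.congr ?_
    intro w hw
    have hw' : ‖w‖ < r := by simpa using hw
    exact D_eq_tsum (hw'.trans hr1)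
  have h3 : DifferentiableAt ℂ D z := (h2 z (by simpa using hzr)).differentiableAt
    (isOpen_ball.mem_nhds (by simpa using hzr))
  exact h3.differentiableWithinAt

/-- The iterates of `D z ∘ U`. -/
def X (f : H) : ℕ → ℂ → H
  | 0 => fun _ => f
  | n + 1 => fun z => D z (comp phi mp_phi (X f n z))

lemma X_norm (f : H) (n : ℕ) (z : ℂ) : ‖X f n z‖ ≤ ‖f‖ := by
  induction n with
  | zero => exact le_rfl
  | succ n ih =>
    change ‖D z (comp phi mp_phi (X f n z))‖ ≤ ‖f‖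
    refine ((D z).le_opNorm _).trans ?_
    rw [LinearIsometry.norm_map]
    calc ‖D z‖ * ‖X f n z‖ ≤ 1 * ‖f‖ := by gcongr; exact D_norm z
      _ = _ := one_mul _

lemma X_differentiableOn (f : H) (n : ℕ) : DifferentiableOn ℂ (X f n) (ball 0 1) := by
  induction n with
  | zero => exact differentiableOn_const _
  | succ n ih =>
    change DifferentiableOn ℂ (fun z => D z (comp phi mp_phi (X f n z))) (ball 0 1)
    apply D_differentiableOn.clm_apply
    exact (comp phi mp_phi).toContinuousLinearMap.differentiable.comp_differentiableOn ih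

/-- The scalar functions. -/
def G (f g : H) (n : ℕ) (z : ℂ) : ℂ := inner ℂ g (X f n z)

lemma G_differentiableOn (f g : H) (n : ℕ) : DifferentiableOn ℂ (G f g n) (ball 0 1) :=
  (innerSL ℂ g).differentiable.comp_differentiableOn (X_differentiableOn f n)

lemma G_norm (f g : H) (n : ℕ) (z : ℂ) : ‖G f g n z‖ ≤ ‖g‖ * ‖f‖ := by
  unfold G
  refine (norm_inner_le_norm _ _).trans ?_
  gcongr
  exact X_norm f n z

/-- The eigenvalues of `-Δ`. -/
def eig (k : Fin 2 → ℤ) : ℝ := 4 * π ^ 2 * ((k 0 : ℝ) ^ 2 + (k 1 : ℝ) ^ 2)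

lemma eig_nsq (k : Fin 2 → ℤ) : eig k = 4 * π ^ 2 * nsq k := by
  unfold eig nsq
  congr 1
  push_cast
  rw [Nat.cast_natAbs, Nat.cast_natAbs]
  push_cast
  rw [sq_abs, sq_abs]

/-- The heat semigroup `e^{ν Δ}`. -/
def heat (ν : ℝ) (f : H) : H :=
  ∑' k : Fin 2 → ℤ, ((Real.exp (-(ν * eig k)) : ℝ) * mFourierCoeff f k) • mFourierLp 2 k

lemma heat_sym_norm {ν : ℝ} (hν : 0 ≤ ν) (k : Fin 2 → ℤ) :
    ‖((Real.exp (-(ν * eig k)) : ℝ) : ℂ)‖ ≤ 1 := by
  rw [Complex.norm_real, Real.norm_eq_abs, abs_of_pos (Real.exp_pos _), Real.exp_le_one_iff]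
  have : 0 ≤ eig k := by unfold eig; positivity
  nlinarith

lemma heat_eq {ν : ℝ} (hν : 0 ≤ ν) (f : H) :
    heat ν f = mult (fun k => ((Real.exp (-(ν * eig k)) : ℝ) : ℂ)) (heat_sym_norm hν) f := by
  have h := hasSum_mFourier_series_L2
    (mult (fun k => ((Real.exp (-(ν * eig k)) : ℝ) : ℂ)) (heat_sym_norm hν) f)
  rw [← h.tsum_eq]
  unfold heat
  congr 1
  ext1 k
  rw [coeff_eq, coeff_eq, mult_coeff]

lemma heat_coeff {ν : ℝ} (hν : 0 ≤ ν) (f : H) (k : Fin 2 → ℤ) :
    inner ℂ (E k) (heat ν f) = ((Real.exp (-(ν * eig k)) : ℝ) : ℂ) * inner ℂ (E k) f := by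
  rw [heat_eq hν, mult_coeff]

/-- One step of the pulsed diffusion, iterated `n` times. -/
def pulsed (ψ : T2 → T2) (hψ : MeasurePreserving ψ volume volume) (ν : ℝ) (n : ℕ) (f : H) : H :=
  (fun g => heat ν (Lp.compMeasurePreserving ψ hψ g))^[n] f

lemma tau_zero : tau 0 = 0 := by ext i; fin_cases i <;> simp [tau]

lemma comp_phi_E_zero : comp phi mp_phi (E 0) = E 0 := by
  apply Lp.ext
  filter_upwards [comp_E_ae phi mp_phi 0, coeFn_mFourierLp 2 (0 : Fin 2 → ℤ)] with x a b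
  rw [a]
  change _ = (E 0 : T2 → ℂ) x
  rw [b, mFourier_eq]
  simp [ee, e_zero]

lemma mean_comp (f : H) : inner ℂ (E 0) (comp phi mp_phi f) = inner ℂ (E 0) f := by
  conv_lhs => rw [← comp_phi_E_zero]
  exact (comp phi mp_phi).inner_map_map _ _

lemma mean_X {f : H} (hf : inner ℂ (E 0) f = 0) (n : ℕ) {z : ℂ} (hz : ‖z‖ ≤ 1) :
    inner ℂ (E 0) (X f n z) = 0 := by
  rcases n with _ | n
  · exact hf
  · change inner ℂ (E 0) (D z (comp phi mp_phi (X f n z))) = 0
    rw [D_coeff hz]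
    simp [sym]

lemma pulsed_eq {f : H} (hf : inner ℂ (E 0) f = 0) {ν : ℝ} (hν : 0 < ν) (n : ℕ) :
    pulsed phi mp_phi ν n f =
      ((Real.exp (-(ν * (4 * π ^ 2))) : ℝ) : ℂ) ^ n • X f n ((Real.exp (-(ν * (4 * π ^ 2))) : ℝ) : ℂ) := by
  set q : ℝ := Real.exp (-(ν * (4 * π ^ 2))) with hq
  have hq0 : 0 < q := Real.exp_pos _
  have hq1 : q ≤ 1 := by
    rw [hq, Real.exp_le_one_iff]
    have : 0 < ν * (4 * π ^ 2) := by positivity
    linarith
  have hqn : ‖(q : ℂ)‖ ≤ 1 := by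
    rw [Complex.norm_real, Real.norm_eq_abs, abs_of_pos hq0]; exact hq1
  induction n with
  | zero => simp [pulsed, X]
  | succ n ih =>
    have h1 : pulsed phi mp_phi ν (n + 1) f = heat ν (comp phi mp_phi (pulsed phi mp_phi ν n f)) := by
      unfold pulsed
      rw [Function.iterate_succ_apply']
      rfl
    rw [h1, ih]
    apply ext_coeff
    intro k
    rw [heat_coeff hν.le, map_smul, inner_smul_right, inner_smul_right]
    change _ = _ * inner ℂ (E k) (D (q : ℂ) (comp phi mp_phi (X f n (q : ℂ))))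
    rw [D_coeff hqn]
    by_cases hk : k = 0
    · subst hk
      rw [mean_comp, mean_X hf n hqn]
      simp
    · have hpos := nsq_pos hk
      have h2 : ((Real.exp (-(ν * eig k)) : ℝ) : ℂ) = (q : ℂ) ^ nsq k := by
        rw [← Complex.ofReal_pow, hq, ← Real.exp_nat_mul]
        congr 2
        rw [eig_nsq]; ring
      have h3 : (q : ℂ) ^ nsq k = q * sym (q : ℂ) k := by
        simp only [sym, hk, if_false]
        rw [← pow_succ']
        congr 1
        omega
      rw [h2, h3, pow_succ]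
      ring

end Pool.Agent.X125.PD
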