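import Pool.Agent.X125.PD.Heat

/-!
Exponential mixing in Sobolev norms.
-/

noncomputable section

namespace Pool.Agent.X125.PD

open Real MeasureTheory UnitAddTorus Metric
open scoped ComplexConjugate

local instance : MeasureSpace UnitAddCircle := ⟨AddCircle.haarAddCircle⟩

local instance : Measure.IsAddHaarMeasure (volume : Measure UnitAddCircle) :=
  inferInstanceAs (Measure.IsAddHaarMeasure AddCircle.haarAddCircle)

local instance : IsProbabilityMeasure (volume : Measure UnitAddCircle) :=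
  inferInstanceAs (IsProbabilityMeasure AddCircle.haarAddCircle)

/-- Membership in the homogeneous Sobolev space `Ḣ^r` of mean-zero functions. -/
def MemSob (r : ℝ) (f : H) : Prop :=
  mFourierCoeff f 0 = 0 ∧ Summable fun k : Fin 2 → ℤ => eig k ^ r * ‖mFourierCoeff f k‖ ^ 2

/-- The homogeneous Sobolev norm `‖(-Δ)^{r/2} f‖`. -/
def sobNorm (r : ℝ) (f : H) : ℝ := √(∑' k : Fin 2 → ℤ, eig k ^ r * ‖mFourierCoeff f k‖ ^ 2)

/-- Strong mixing with a rate function. -/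
def StronglyMixing (ψ : T2 → T2) (hψ : MeasurePreserving ψ volume volume) (α β : ℝ) (h : ℝ → ℝ) :
    Prop :=
  ∀ (n : ℕ) (f g : H), MemSob α f → MemSob β g →
    ‖(inner ℂ g (Lp.compMeasurePreserving ψ^[n] (hψ.iterate n) f) : ℂ)‖ ≤
      h n * sobNorm α f * sobNorm β g

/-- Exponential mixing. -/
def ExpMixing (ψ : T2 → T2) (hψ : MeasurePreserving ψ volume volume) : Prop :=
  ∃ α > 0, ∃ β > 0, ∃ c₁ > 0, ∃ c₂ > 0,
    StronglyMixing ψ hψ α β (fun t => c₁ * Real.exp (-(c₂ * t)))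

lemma eig_nonneg (k : Fin 2 → ℤ) : 0 ≤ eig k := by unfold eig; positivity

lemma n1_sq_le (k : Fin 2 → ℤ) : n1 k ^ 2 ≤ eig k := by
  unfold n1 eig
  have h1 : (|(k 0 : ℝ)| + |(k 1 : ℝ)|) ^ 2 ≤ 2 * ((k 0 : ℝ) ^ 2 + (k 1 : ℝ) ^ 2) := by
    have a := sq_abs (k 0 : ℝ)
    have b := sq_abs (k 1 : ℝ)
    nlinarith [sq_nonneg (|(k 0 : ℝ)| - |(k 1 : ℝ)|)]
  have hpi : 3 < π := pi_gt_three
  have h2 : (2 : ℝ) ≤ 4 * π ^ 2 := by nlinarith
  have h3 : 0 ≤ (k 0 : ℝ) ^ 2 + (k 1 : ℝ) ^ 2 := by positivity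
  nlinarith

/-- The weight in the Cauchy-Schwarz inequality. -/
def wt (k : Fin 2 → ℤ) : ℝ := if k = 0 then 0 else n1 k / √(eig k ^ (3 : ℝ))

lemma wt_nonneg (k : Fin 2 → ℤ) : 0 ≤ wt k := by
  unfold wt
  by_cases hk : k = 0
  · rw [if_pos hk]
  · rw [if_neg hk]
    exact div_nonneg (n1_nonneg k) (Real.sqrt_nonneg _)

lemma eig_pos {k : Fin 2 → ℤ} (hk : k ≠ 0) : 0 < eig k := by
  have h1 := one_le_n1 hk
  have h2 := n1_sq_le k
  nlinarith

lemma wt_sq_le (k : Fin 2 → ℤ) :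
    wt k ^ 2 ≤ 16 * ((1 / (1 + |(k 0 : ℝ)|) ^ 2) * (1 / (1 + |(k 1 : ℝ)|) ^ 2)) := by
  unfold wt
  split_ifs with hk
  · rw [zero_pow two_ne_zero]; positivity
  · have h1 := one_le_n1 hk
    have h2 := n1_sq_le k
    have hp := eig_pos hk
    have hn : 0 < n1 k := by linarith
    rw [div_pow, Real.sq_sqrt (by positivity)]
    have e3 : eig k ^ (3 : ℝ) = eig k ^ 3 := by
      rw [← Real.rpow_natCast]; norm_num
    rw [e3]
    have h3 : (n1 k) ^ 6 ≤ eig k ^ 3 := by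
      calc (n1 k) ^ 6 = (n1 k ^ 2) ^ 3 := by ring
        _ ≤ eig k ^ 3 := by gcongr
    have h4 : (1 + |(k 0 : ℝ)|) * (1 + |(k 1 : ℝ)|) ≤ 4 * n1 k ^ 2 := by
      have a : 1 + |(k 0 : ℝ)| ≤ 2 * n1 k := by
        unfold n1 at h1 ⊢
        have := abs_nonneg (k 1 : ℝ)
        linarith
      have b : 1 + |(k 1 : ℝ)| ≤ 2 * n1 k := by
        unfold n1 at h1 ⊢
        have := abs_nonneg (k 0 : ℝ)
        linarith
      calc (1 + |(k 0 : ℝ)|) * (1 + |(k 1 : ℝ)|) ≤ (2 * n1 k) * (2 * n1 k) := by gcongr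
        _ = _ := by ring
    have hq : 0 < (1 + |(k 0 : ℝ)|) * (1 + |(k 1 : ℝ)|) := by positivity
    calc n1 k ^ 2 / eig k ^ 3 ≤ n1 k ^ 2 / n1 k ^ 6 := by gcongr
      _ = 1 / (n1 k ^ 2) ^ 2 := by field_simp
      _ = 16 * (1 / (4 * n1 k ^ 2) ^ 2) := by field_simp; ring
      _ ≤ 16 * (1 / ((1 + |(k 0 : ℝ)|) * (1 + |(k 1 : ℝ)|)) ^ 2) := by gcongr
      _ = _ := by field_simp

lemma summable_int : Summable (fun m : ℤ => 1 / (1 + |(m : ℝ)|) ^ 2) := by
  apply Summable.of_nat_of_neg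
  · have h := (Real.summable_one_div_nat_pow (p := 2)).2 (by norm_num)
    have h2 := (summable_nat_add_iff 1).2 h
    refine h2.congr ?_
    intro n
    push_cast
    rw [abs_of_nonneg (by positivity : (0 : ℝ) ≤ n), add_comm]
  · have h := (Real.summable_one_div_nat_pow (p := 2)).2 (by norm_num)
    have h2 := (summable_nat_add_iff 1).2 h
    refine h2.congr ?_
    intro n
    push_cast
    rw [abs_neg, abs_of_nonneg (by positivity : (0 : ℝ) ≤ n), add_comm]

lemma summable_two : Summable (fun k : Fin 2 → ℤ =>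
    (1 / (1 + |(k 0 : ℝ)|) ^ 2) * (1 / (1 + |(k 1 : ℝ)|) ^ 2)) := by
  have h := summable_int.mul_of_nonneg summable_int (fun _ => by positivity) (fun _ => by positivity)
  have h2 := (finTwoArrowEquiv ℤ).summable_iff.2 h
  exact h2

lemma summable_wt : Summable (fun k => wt k ^ 2) :=
  Summable.of_nonneg_of_le (fun k => by positivity) wt_sq_le (summable_two.mul_left 16)

/-- The constant. -/
def Z : ℝ := √(∑' k, wt k ^ 2)

lemma cs {f : H} (hf : MemSob 3 f) :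
    Summable (fun k => n1 k * ‖mFourierCoeff f k‖) ∧
      ∑' k, n1 k * ‖mFourierCoeff f k‖ ≤ Z * sobNorm 3 f := by
  have hsplit : ∀ k, n1 k * ‖mFourierCoeff f k‖ = wt k * √(eig k ^ (3 : ℝ) * ‖mFourierCoeff f k‖ ^ 2) := by
    intro k
    by_cases hk : k = 0
    · rw [hk, hf.1]; simp [n1, wt]
    · have hp := eig_pos hk
      unfold wt
      rw [if_neg hk, Real.sqrt_mul (by positivity), Real.sqrt_sq (norm_nonneg _)]
      have : √(eig k ^ (3 : ℝ)) ≠ 0 := by positivity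
      field_simp
  have hsq : ∀ k, √(eig k ^ (3 : ℝ) * ‖mFourierCoeff f k‖ ^ 2) ^ (2 : ℝ) =
      eig k ^ (3 : ℝ) * ‖mFourierCoeff f k‖ ^ 2 := by
    intro k
    rw [Real.rpow_two, Real.sq_sqrt]
    have := eig_nonneg k
    positivity
  have hwsq : ∀ k, wt k ^ (2 : ℝ) = wt k ^ 2 := fun k => Real.rpow_two _
  have h := Real.summable_and_inner_le_Lp_mul_Lq_tsum_of_nonneg (p := 2) (q := 2)
    (f := wt) (g := fun k => √(eig k ^ (3 : ℝ) * ‖mFourierCoeff f k‖ ^ 2))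
    (by constructor <;> norm_num) wt_nonneg (fun k => Real.sqrt_nonneg _)
    (by simp only [hwsq]; exact summable_wt) (by simp only [hsq]; exact hf.2)
  simp only [hwsq, hsq] at h
  simp only [hsplit]
  refine ⟨h.1, h.2.trans (le_of_eq ?_)⟩
  rw [← Real.sqrt_eq_rpow, ← Real.sqrt_eq_rpow]
  rfl

/-- Powers of the composition operator as a continuous linear map. -/
def Upow (n : ℕ) : H →L[ℂ] H := (comp phi mp_phi).toContinuousLinearMap ^ n

lemma Upow_apply (n : ℕ) (f : H) : Upow n f = ((comp phi mp_phi)^[n]) f := by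
  unfold Upow
  induction n generalizing f with
  | zero => simp
  | succ n ih =>
    rw [pow_succ', mul_apply_eq_comp, ih, Function.iterate_succ_apply']
    rfl

lemma inner_E_left (n : ℕ) {g : H} (hg : MemSob 3 g) {k : Fin 2 → ℤ} (hk : k ≠ 0) :
    ‖(inner ℂ g (Upow n (E k)) : ℂ)‖ ≤
      (108 * (1 / 2) ^ n * n1 k) * ∑' l, n1 l * ‖mFourierCoeff g l‖ := by
  rw [norm_inner_symm]
  have h1 := (hasSum_mFourier_series_L2 g).mapL (innerSL ℂ (Upow n (E k)))
  have h2 := (cs hg).1.hasSum.mul_left (108 * (1 / 2) ^ n * n1 k)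
  refine HasSum.norm_le_of_bounded h1 h2 ?_
  intro l
  rw [map_smul, smul_eq_mul, norm_mul, innerSL_apply_apply, norm_inner_symm, Upow_apply]
  have h3 := matrix_bound n k l hk
  calc ‖mFourierCoeff g l‖ * ‖(inner ℂ (E l) (((comp phi mp_phi)^[n]) (E k)) : ℂ)‖
      ≤ ‖mFourierCoeff g l‖ * (108 * (n1 k * n1 l) * (1 / 2) ^ n) := by gcongr
    _ = _ := by ring

lemma mixing_bound (n : ℕ) {f g : H} (hf : MemSob 3 f) (hg : MemSob 3 g) :
    ‖(inner ℂ g (Upow n f) : ℂ)‖ ≤ (108 * Z ^ 2 * (1 / 2) ^ n) * sobNorm 3 f * sobNorm 3 g := by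
  have h1 := ((hasSum_mFourier_series_L2 f).mapL (Upow n)).mapL (innerSL ℂ g)
  have h2 := (cs hf).1.hasSum.mul_left (108 * (1 / 2) ^ n * ∑' l, n1 l * ‖mFourierCoeff g l‖)
  have h3 := HasSum.norm_le_of_bounded h1 h2 (by
    intro k
    rw [map_smul, map_smul, smul_eq_mul, norm_mul, innerSL_apply_apply]
    by_cases hk : k = 0
    · rw [hk, hf.1]; simp
    · calc ‖mFourierCoeff f k‖ * ‖(inner ℂ g (Upow n (E k)) : ℂ)‖
          ≤ ‖mFourierCoeff f k‖ * ((108 * (1 / 2) ^ n * n1 k) * ∑' l, n1 l * ‖mFourierCoeff g l‖) := by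
            gcongr
            exact inner_E_left n hg hk
        _ = _ := by ring)
  have hS : 0 ≤ ∑' l, n1 l * ‖mFourierCoeff g l‖ :=
    tsum_nonneg fun l => mul_nonneg (n1_nonneg l) (norm_nonneg _)
  have hSf : 0 ≤ ∑' l, n1 l * ‖mFourierCoeff f l‖ :=
    tsum_nonneg fun l => mul_nonneg (n1_nonneg l) (norm_nonneg _)
  have hZ : 0 ≤ Z := Real.sqrt_nonneg _
  have hn : 0 ≤ sobNorm 3 g := Real.sqrt_nonneg _
  have hnf : 0 ≤ sobNorm 3 f := Real.sqrt_nonneg _
  have c1 := (cs hf).2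
  have c2 := (cs hg).2
  calc ‖(inner ℂ g (Upow n f) : ℂ)‖
      ≤ (108 * (1 / 2) ^ n * ∑' l, n1 l * ‖mFourierCoeff g l‖) * ∑' k, n1 k * ‖mFourierCoeff f k‖ := h3
    _ ≤ (108 * (1 / 2) ^ n * (Z * sobNorm 3 g)) * (Z * sobNorm 3 f) := by gcongr
    _ = _ := by ring

lemma Z_pos : 0 < Z := by
  unfold Z
  apply Real.sqrt_pos.2
  have h1 : wt ![1, 0] ^ 2 ≤ ∑' k, wt k ^ 2 :=
    summable_wt.le_tsum _ (fun k _ => by positivity)
  have hne : (![1, 0] : Fin 2 → ℤ) ≠ 0 := by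
    intro h
    have := congrFun h 0
    simp at this
  have h2 : 0 < wt ![1, 0] := by
    unfold wt
    rw [if_neg hne]
    have a := one_le_n1 hne
    have b := eig_pos hne
    positivity
  have h3 : 0 < wt ![1, 0] ^ 2 := by positivity
  linarith

lemma expMixing_phi : ExpMixing phi mp_phi := by
  refine ⟨3, by norm_num, 3, by norm_num, 108 * Z ^ 2, ?_, Real.log 2, Real.log_pos (by norm_num), ?_⟩
  · have := Z_pos; positivity
  · intro n f g hf hg
    have h := mixing_bound n hf hg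
    have e1 : Real.exp (-(Real.log 2 * (n : ℝ))) = (1 / 2) ^ n := by
      rw [Real.exp_neg, mul_comm, Real.exp_nat_mul, Real.exp_log (by norm_num)]
      simp
    rw [Upow_apply] at h
    have e2 : Lp.compMeasurePreserving phi^[n] (mp_phi.iterate n) f = ((comp phi mp_phi)^[n]) f := by
      have := Lp.compMeasurePreserving_iterate (E := ℂ) (p := 2) mp_phi n
      have h2 := congrFun this f
      exact h2.symm
    rw [e2]
    simp only [e1]
    exact h

end Pool.Agent.X125.PD
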