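import Pool.Agent.X125.PD.Block
import Pool.Agent.X125.PD.Mixing
import Pool.Agent.X125.PD.Disc
import Pool.Agent.X125.PD.Growth

/-!
The lower bound for the pulsed diffusion, and smoothness of `phi`.
-/

noncomputable section

namespace Pool.Agent.X125.PD

open Real MeasureTheory UnitAddTorus Metric
open scoped ComplexConjugate ContDiff

local instance : MeasureSpace UnitAddCircle := ⟨AddCircle.haarAddCircle⟩

local instance : Measure.IsAddHaarMeasure (volume : Measure UnitAddCircle) :=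
  inferInstanceAs (Measure.IsAddHaarMeasure AddCircle.haarAddCircle)

local instance : IsProbabilityMeasure (volume : Measure UnitAddCircle) :=
  inferInstanceAs (IsProbabilityMeasure AddCircle.haarAddCircle)

theorem main_lower {C γ ν₀ : ℝ} (hC : 0 < C) (hγ : 1 < γ) (hν₀ : 0 < ν₀) :
    ∃ ν > 0, ν ≤ ν₀ ∧ ∃ n : ℕ, 1 ≤ n ∧
      Real.exp (-(ν * γ ^ n / C)) * ‖qv‖ < ‖pulsed phi mp_phi ν n qv‖ := by
  by_contra hcon
  push Not at hcon
  set κ : ℝ := 4 * π ^ 2 with hκ
  have hκ0 : 0 < κ := by positivity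
  set a := Real.exp (-(ν₀ * κ)) with ha
  set b := Real.exp (-(ν₀ / 2 * κ)) with hb
  set c := ν₀ / 2 / C with hc
  have hc0 : 0 < c := by positivity
  have ha0 : 0 < a := Real.exp_pos _
  have hab : a < b := by
    rw [ha, hb, Real.exp_lt_exp]
    have : 0 < ν₀ * κ := by positivity
    linarith
  have hb1 : b < 1 := by
    rw [hb, Real.exp_lt_one_iff]
    have : 0 < ν₀ * κ := by positivity
    linarith
  obtain ⟨n, N, hn, hN, hlt⟩ := growth ha0 hab hb1 hc0 hγ
  obtain ⟨g, hg, hG⟩ := G_lower n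
  have h22 : √2 * √2 = 2 := Real.mul_self_sqrt (by norm_num)
  have hsmall := disc_small ha0 hab hb1 (M := 2) (ε := 2 * (1 / a) ^ n * Real.exp (-(c * γ ^ n)))
    (G_differentiableOn qv g n) (fun z _ => (G_norm qv g n z).trans (by rw [hg, norm_qv, h22])) (by
      intro t ht1 ht2
      have ht0 : 0 < t := ha0.trans_le ht1
      set ν := -Real.log t / κ with hν
      have hνt : Real.exp (-(ν * κ)) = t := by
        rw [hν, div_mul_cancel₀ _ hκ0.ne', neg_neg, Real.exp_log ht0]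
      have hν1 : ν ≤ ν₀ := by
        have h1 : Real.exp (-(ν₀ * κ)) ≤ Real.exp (-(ν * κ)) := by rw [hνt]; exact ht1
        rw [Real.exp_le_exp] at h1
        have h2 : ν * κ ≤ ν₀ * κ := by linarith
        exact le_of_mul_le_mul_right h2 hκ0
      have hν2 : ν₀ / 2 ≤ ν := by
        have h1 : Real.exp (-(ν * κ)) ≤ Real.exp (-(ν₀ / 2 * κ)) := by rw [hνt]; exact ht2
        rw [Real.exp_le_exp] at h1
        have h2 : ν₀ / 2 * κ ≤ ν * κ := by linarith
        exact le_of_mul_le_mul_right h2 hκ0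
      have hν0 : 0 < ν := by linarith
      have hle := hcon ν hν0 hν1 n hn
      rw [pulsed_eq mean_qv hν0 n, norm_smul, norm_pow] at hle
      have hq : ((Real.exp (-(ν * (4 * π ^ 2))) : ℝ) : ℂ) = (t : ℂ) := by rw [← hκ, hνt]
      rw [hq, Complex.norm_real, Real.norm_eq_abs, abs_of_pos ht0, norm_qv] at hle
      have hX : ‖X qv n (t : ℂ)‖ ≤ (1 / a) ^ n * (Real.exp (-(c * γ ^ n)) * √2) := by
        have hγn : 0 < γ ^ n := by positivity
        have e1 : Real.exp (-(ν * γ ^ n / C)) ≤ Real.exp (-(c * γ ^ n)) := by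
          rw [Real.exp_le_exp, neg_le_neg_iff, hc]
          calc ν₀ / 2 / C * γ ^ n = ν₀ / 2 * γ ^ n / C := by ring
            _ ≤ ν * γ ^ n / C := by gcongr
        have htn : 0 < t ^ n := by positivity
        have e2 : ‖X qv n (t : ℂ)‖ = (1 / t) ^ n * (t ^ n * ‖X qv n (t : ℂ)‖) := by
          rw [← mul_assoc, ← mul_pow, one_div, inv_mul_cancel₀ ht0.ne', one_pow, one_mul]
        rw [e2]
        calc (1 / t) ^ n * (t ^ n * ‖X qv n (t : ℂ)‖)
            ≤ (1 / t) ^ n * (Real.exp (-(ν * γ ^ n / C)) * √2) := by gcongr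
          _ ≤ (1 / a) ^ n * (Real.exp (-(c * γ ^ n)) * √2) := by gcongr
      unfold G
      refine (norm_inner_le_norm _ _).trans ?_
      rw [hg]
      calc √2 * ‖X qv n (t : ℂ)‖ ≤ √2 * ((1 / a) ^ n * (Real.exp (-(c * γ ^ n)) * √2)) := by gcongr
        _ = (√2 * √2) * (1 / a) ^ n * Real.exp (-(c * γ ^ n)) := by ring
        _ = _ := by rw [h22]) N hN
  linarith

/-- A map of the torus is smooth if it has a smooth lift. -/
def IsSmooth (ψ : T2 → T2) : Prop :=
  ∃ Ψ : (Fin 2 → ℝ) → (Fin 2 → ℝ), ContDiff ℝ ∞ Ψ ∧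
    ∀ x : Fin 2 → ℝ, ψ (fun i => (x i : UnitAddCircle)) = fun i => ((Ψ x i : ℝ) : UnitAddCircle)

lemma IsSmooth.comp {ψ χ : T2 → T2} (h : IsSmooth ψ) (h' : IsSmooth χ) : IsSmooth (ψ ∘ χ) := by
  obtain ⟨Ψ, h1, h2⟩ := h
  obtain ⟨Χ, h3, h4⟩ := h'
  refine ⟨Ψ ∘ Χ, h1.comp h3, fun x => ?_⟩
  rw [Function.comp_apply, h4, h2]
  rfl

lemma contDiff_vec {f g : (Fin 2 → ℝ) → ℝ} (hf : ContDiff ℝ ∞ f) (hg : ContDiff ℝ ∞ g) :
    ContDiff ℝ ∞ (fun x => (![f x, g x] : Fin 2 → ℝ)) := by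
  rw [contDiff_pi]
  intro i
  fin_cases i
  · exact hf
  · exact hg

lemma smooth_S : IsSmooth S := by
  refine ⟨fun x => ![x 0, x 1 + sR (x 0)], ?_, fun x => ?_⟩
  · apply contDiff_vec (contDiff_apply ℝ ℝ 0)
    exact (contDiff_apply ℝ ℝ 1).add (contDiff_sR.comp (contDiff_apply ℝ ℝ 0))
  · ext i; fin_cases i
    · simp [S]
    · simp [S, s_coe]

lemma smooth_S' : IsSmooth S' := by
  refine ⟨fun x => ![x 0, x 1 - sR (x 0)], ?_, fun x => ?_⟩
  · apply contDiff_vec (contDiff_apply ℝ ℝ 0)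
    exact (contDiff_apply ℝ ℝ 1).sub (contDiff_sR.comp (contDiff_apply ℝ ℝ 0))
  · ext i; fin_cases i
    · simp [S']
    · simp [S', s_coe]

lemma smooth_A : IsSmooth A := by
  refine ⟨fun x => ![x 1, - x 0 + 3 * x 1], ?_, fun x => ?_⟩
  · apply contDiff_vec (contDiff_apply ℝ ℝ 1)
    exact (contDiff_apply ℝ ℝ 0).neg.add (contDiff_const.mul (contDiff_apply ℝ ℝ 1))
  · ext i; fin_cases i
    · simp [A]
    · simp only [A, Fin.mk_one, Matrix.cons_val_one, Matrix.cons_val_fin_one]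
      push_cast
      congr 1
      rw [← AddCircle.coe_zsmul]
      congr 1
      simp

/-- The inverse of `A`. -/
def Ainv (x : T2) : T2 := ![(3 : ℤ) • x 0 - x 1, x 0]

lemma smooth_Ainv : IsSmooth Ainv := by
  refine ⟨fun x => ![3 * x 0 - x 1, x 0], ?_, fun x => ?_⟩
  · refine contDiff_vec ?_ (contDiff_apply ℝ ℝ 0)
    exact (contDiff_const.mul (contDiff_apply ℝ ℝ 0)).sub (contDiff_apply ℝ ℝ 1)
  · ext i; fin_cases i
    · simp only [Ainv, Fin.zero_eta, Matrix.cons_val_zero]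
      push_cast
      congr 1
      rw [← AddCircle.coe_zsmul]
      congr 1
      simp
    · simp [Ainv]

lemma Ainv_A (x : T2) : Ainv (A x) = x := by
  ext i; fin_cases i
  · simp only [Ainv, A, Fin.zero_eta, Matrix.cons_val_zero, Matrix.cons_val_one,
      Matrix.cons_val_fin_one]
    abel
  · simp [Ainv, A]

lemma A_Ainv (x : T2) : A (Ainv x) = x := by
  ext i; fin_cases i
  · simp [Ainv, A]
  · simp only [Ainv, A, Fin.mk_one, Matrix.cons_val_zero, Matrix.cons_val_one,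
      Matrix.cons_val_fin_one]
    abel

/-- The inverse of `phi`. -/
def psi (x : T2) : T2 := S' (Ainv (S x))

lemma psi_phi (x : T2) : psi (phi x) = x := by
  rw [psi, phi, S_S', Ainv_A, S'_S]

lemma phi_psi (x : T2) : phi (psi x) = x := by
  rw [psi, phi, S_S', A_Ainv, S'_S]

lemma smooth_phi : IsSmooth phi := (smooth_S'.comp (smooth_A.comp smooth_S))

lemma smooth_psi : IsSmooth psi := (smooth_S'.comp (smooth_Ainv.comp smooth_S))

/-- `qv` is real valued. -/
lemma real_qv : ∀ᵐ x, (qv x).im = 0 := by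
  have h : (qv : T2 → ℂ) =ᵐ[volume] fun x => (E k3 : T2 → ℂ) x + (E k4 : T2 → ℂ) x :=
    Lp.coeFn_add (E k3) (E k4)
  filter_upwards [h, coeFn_mFourierLp 2 k3, coeFn_mFourierLp 2 k4] with x a b c
  rw [a]
  change ((E k3 : T2 → ℂ) x + (E k4 : T2 → ℂ) x).im = 0
  rw [b, c, mFourier_eq, mFourier_eq]
  have h4 : k4 = - k3 := by
    rw [kk]; simp [k3, k4]
  rw [h4, ee_neg]
  simp

end Pool.Agent.X125.PD
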