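import Mathlib

/-!
The circle map `s` with `e(s(x)) = (2 e(x) - 1)/(2 - e(x))` and the Fourier coefficients
`beta j m` of `x ↦ e(j s(x))`.
-/

noncomputable section

namespace Pool.Agent.X125.PD

open Real MeasureTheory AddCircle
open scoped ComplexConjugate ContDiff

local instance : MeasureSpace UnitAddCircle := ⟨AddCircle.haarAddCircle⟩

local instance : Measure.IsAddHaarMeasure (volume : Measure UnitAddCircle) :=
  inferInstanceAs (Measure.IsAddHaarMeasure AddCircle.haarAddCircle)

local instance : IsProbabilityMeasure (volume : Measure UnitAddCircle) :=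
  inferInstanceAs (IsProbabilityMeasure AddCircle.haarAddCircle)

/-- The character `x ↦ exp(2 π i n x)` of the circle. -/
def e (n : ℤ) (x : UnitAddCircle) : ℂ := fourier n x

lemma e_coe (n : ℤ) (x : ℝ) : e n (x : UnitAddCircle) = Complex.exp (2 * π * Complex.I * n * x) := by
  rw [e, fourier_coe_apply]; simp

lemma e_zero (x : UnitAddCircle) : e 0 x = 1 := by rw [e, fourier_zero]

lemma e_zero_arg (n : ℤ) : e n 0 = 1 := by rw [e, fourier_eval_zero]

lemma e_add (m n : ℤ) (x : UnitAddCircle) : e (m + n) x = e m x * e n x := by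
  rw [e, fourier_add]; rfl

lemma e_neg (n : ℤ) (x : UnitAddCircle) : e (-n) x = conj (e n x) := by
  rw [e, fourier_neg]; rfl

lemma norm_e (n : ℤ) (x : UnitAddCircle) : ‖e n x‖ = 1 := Circle.norm_coe _

lemma e_add_arg (n : ℤ) (x y : UnitAddCircle) : e n (x + y) = e n x * e n y := by
  rw [e, e, e, fourier_apply, fourier_apply, fourier_apply, zsmul_add, toCircle_add, Circle.coe_mul]

lemma e_neg_arg (n : ℤ) (x : UnitAddCircle) : e n (-x) = e (-n) x := by
  rw [e, e, fourier_apply, fourier_apply, neg_smul, smul_neg]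

lemma e_zsmul (m n : ℤ) (x : UnitAddCircle) : e m (n • x) = e (m * n) x := by
  rw [e, e, fourier_apply, fourier_apply, mul_smul]

lemma continuous_e (n : ℤ) : Continuous (e n) := (fourier n).continuous

lemma e_mul_e_neg (n : ℤ) (x : UnitAddCircle) : e n x * e (-n) x = 1 := by
  rw [← e_add]; simp [e_zero]

lemma e_neg_mul_e (n : ℤ) (x : UnitAddCircle) : e (-n) x * e n x = 1 := by
  rw [← e_add]; simp [e_zero]

lemma integral_e (n : ℤ) : ∫ x : UnitAddCircle, e n x = if n = 0 then 1 else 0 := by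
  have h := (orthonormal_iff_ite.mp (orthonormal_fourier (T := (1 : ℝ)))) 0 n
  have h2 : inner ℂ (fourierLp (T := (1 : ℝ)) 2 0) (fourierLp 2 n) = ∫ x : UnitAddCircle, e n x := by
    rw [ContinuousMap.inner_toLp]
    apply integral_congr_ae
    filter_upwards with x
    simp [e, fourier_zero]
  rw [← h2, h]
  by_cases hn : n = 0
  · simp [hn]
  · simp [hn, Ne.symm hn]

/-- The lift of the circle map `s`. -/
def sR (x : ℝ) : ℝ := x + (1 / π) * arctan (sin (2 * π * x) / (2 - cos (2 * π * x)))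

lemma two_sub_cos_pos (t : ℝ) : 0 < 2 - cos t := by linarith [cos_le_one t]

lemma sR_add_one (x : ℝ) : sR (x + 1) = sR x + 1 := by
  have h1 : 2 * π * (x + 1) = 2 * π * x + 2 * π := by ring
  rw [sR, sR, h1, sin_add_two_pi, cos_add_two_pi]; ring

lemma contDiff_sR : ContDiff ℝ ∞ sR := by
  unfold sR
  apply contDiff_id.add
  apply contDiff_const.mul
  apply ContDiff.arctan
  apply ContDiff.div
  · fun_prop
  · fun_prop
  · intro x; exact (two_sub_cos_pos _).ne'

lemma periodic_sR : Function.Periodic (fun x : ℝ => ((sR x : ℝ) : UnitAddCircle)) 1 := by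
  intro x
  simp only [sR_add_one]
  exact coe_add_period 1 (sR x)

/-- The circle map `s`. -/
def s : UnitAddCircle → UnitAddCircle := periodic_sR.lift

lemma s_coe (x : ℝ) : s (x : UnitAddCircle) = ((sR x : ℝ) : UnitAddCircle) :=
  periodic_sR.lift_coe x

lemma continuous_s : Continuous s := by
  have : Continuous (fun x : ℝ => ((sR x : ℝ) : UnitAddCircle)) :=
    (AddCircle.continuous_mk' 1).comp contDiff_sR.continuous
  exact continuous_coinduced_dom.mpr this

lemma exp_two_arctan (t : ℝ) :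
    Complex.exp (2 * Complex.I * (arctan t : ℝ)) * (1 - t * Complex.I) = 1 + t * Complex.I := by
  have h1 : Complex.exp (2 * Complex.I * (arctan t : ℝ)) = (Complex.exp ((arctan t : ℝ) * Complex.I)) ^ 2 := by
    rw [← Complex.exp_nat_mul]; congr 1; push_cast; ring
  have hc : 0 < cos (arctan t) := cos_arctan_pos t
  have ht : sin (arctan t) = t * cos (arctan t) := by
    have := tan_arctan t
    rw [tan_eq_sin_div_cos] at this
    field_simp at this
    linarith
  have hcs : cos (arctan t) ^ 2 + sin (arctan t) ^ 2 = 1 := cos_sq_add_sin_sq _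
  rw [h1, Complex.exp_mul_I, ← Complex.ofReal_cos, ← Complex.ofReal_sin, ht, Complex.ofReal_mul]
  have h2 : cos (arctan t) ^ 2 * (1 + t ^ 2) = 1 := by
    rw [ht] at hcs; linarith
  have h3 : ((cos (arctan t) : ℝ) : ℂ) ^ 2 * (1 + (t : ℂ) ^ 2) = 1 := by
    exact_mod_cast h2
  have hI := Complex.I_sq
  linear_combination (1 + t * Complex.I) * h3 +
    (-(t : ℂ) ^ 2 * ((cos (arctan t) : ℝ) : ℂ) ^ 2 * (1 + t * Complex.I)) * hI

lemma e_s (x : UnitAddCircle) : e 1 (s x) * (2 - e 1 x) = 2 * e 1 x - 1 := by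
  induction x using QuotientAddGroup.induction_on with
  | H x =>
    change e 1 (s (x : UnitAddCircle)) * (2 - e 1 (x : UnitAddCircle)) = 2 * e 1 (x : UnitAddCircle) - 1
    rw [s_coe, e_coe, e_coe]
    set τ := sin (2 * π * x) / (2 - cos (2 * π * x)) with hτ
    have hpos := two_sub_cos_pos (2 * π * x)
    have h1 : Complex.exp (2 * π * Complex.I * ((1 : ℤ) : ℂ) * (sR x : ℝ)) =
        Complex.exp (2 * π * Complex.I * ((1 : ℤ) : ℂ) * (x : ℝ)) * Complex.exp (2 * Complex.I * (arctan τ : ℝ)) := by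
      rw [← Complex.exp_add]
      congr 1
      have hpi : (π : ℂ) ≠ 0 := by exact_mod_cast pi_ne_zero
      rw [sR, ← hτ]
      simp only [Complex.ofReal_add, Complex.ofReal_mul, Complex.ofReal_div, Complex.ofReal_one,
        Int.cast_one]
      field_simp
    have h2 := exp_two_arctan τ
    have hz : Complex.exp (2 * π * Complex.I * ((1 : ℤ) : ℂ) * (x : ℝ)) =
        (cos (2 * π * x) : ℝ) + (sin (2 * π * x) : ℝ) * Complex.I := by
      rw [Complex.ofReal_cos, Complex.ofReal_sin, ← Complex.exp_mul_I]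
      congr 1
      push_cast; ring
    have hcs : ((cos (2 * π * x) : ℝ) : ℂ) ^ 2 + ((sin (2 * π * x) : ℝ) : ℂ) ^ 2 = 1 := by
      exact_mod_cast cos_sq_add_sin_sq (2 * π * x)
    have hτ2 : (τ : ℂ) * (2 - ((cos (2 * π * x) : ℝ) : ℂ)) = ((sin (2 * π * x) : ℝ) : ℂ) := by
      rw [hτ]
      push_cast
      have : (2 : ℂ) - Complex.cos (2 * π * x) ≠ 0 := by
        have h := hpos.ne'
        intro h'
        apply h
        have : ((2 - cos (2 * π * x) : ℝ) : ℂ) = 0 := by push_cast; exact h'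
        exact_mod_cast this
      field_simp
    rw [h1, hz]
    set c : ℂ := ((cos (2 * π * x) : ℝ) : ℂ)
    set d : ℂ := ((sin (2 * π * x) : ℝ) : ℂ)
    set w := Complex.exp (2 * Complex.I * (arctan τ : ℝ))
    have h3 : w * (2 - c - d * Complex.I) = 2 - c + d * Complex.I := by
      have : (w * (1 - τ * Complex.I)) * (2 - c) = (1 + τ * Complex.I) * (2 - c) := by rw [h2]
      rw [← hτ2]
      linear_combination this
    have hI := Complex.I_sq
    linear_combination (c + d * Complex.I) * h3 + hcs * (-1) + d ^ 2 * hI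

/-- The Fourier coefficients of `x ↦ e(j s(x))`. -/
def beta (j m : ℤ) : ℂ := ∫ x : UnitAddCircle, e (-m) x * e j (s x)

lemma integrable_of_cont {f : UnitAddCircle → ℂ} (hf : Continuous f) : Integrable f :=
  hf.integrable_of_hasCompactSupport (HasCompactSupport.of_compactSpace f)

lemma beta_norm_le (j m : ℤ) : ‖beta j m‖ ≤ 1 := by
  unfold beta
  refine (norm_integral_le_of_norm_le_const (C := 1) ?_).trans ?_
  · filter_upwards with x
    rw [norm_mul, norm_e, norm_e]; norm_num
  · simp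

lemma beta_zero (m : ℤ) : beta 0 m = if m = 0 then 1 else 0 := by
  have : beta 0 m = ∫ x : UnitAddCircle, e (-m) x := by
    unfold beta
    congr 1
    ext x
    rw [e_zero, mul_one]
  rw [this, integral_e]
  simp

lemma beta_neg (j m : ℤ) : beta (-j) (-m) = conj (beta j m) := by
  unfold beta
  rw [← integral_conj]
  congr 1
  ext x
  rw [map_mul, ← e_neg, ← e_neg]

lemma beta_rec (m : ℤ) :
    2 * beta 1 m - beta 1 (m - 1) = (if m = 1 then 2 else 0) - (if m = 0 then 1 else 0) := by
  have c1 : Continuous (fun x => e (-m) x * e 1 (s x)) :=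
    (continuous_e _).mul ((continuous_e _).comp continuous_s)
  have c2 : Continuous (fun x => e (-(m - 1)) x * e 1 (s x)) :=
    (continuous_e _).mul ((continuous_e _).comp continuous_s)
  have h1 : 2 * beta 1 m - beta 1 (m - 1) = ∫ x : UnitAddCircle, (2 * e (1 - m) x - e (-m) x) := by
    unfold beta
    rw [← integral_const_mul, ← integral_sub ((integrable_of_cont c1).const_mul 2) (integrable_of_cont c2)]
    congr 1
    ext x
    have h := e_s x
    have ha : e (-(m - 1)) x = e (-m) x * e 1 x := by rw [← e_add]; congr 1; ring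
    have hb : e (1 - m) x = e (-m) x * e 1 x := by rw [← e_add]; congr 1; ring
    rw [ha, hb]
    linear_combination e (-m) x * h
  rw [h1, integral_sub ((integrable_of_cont (continuous_e _)).const_mul 2)
    (integrable_of_cont (continuous_e _)), integral_const_mul, integral_e, integral_e]
  have e1 : (1 - m = 0) ↔ m = 1 := by omega
  have e2 : (-m = 0) ↔ m = 0 := by omega
  simp only [e1, e2]
  split_ifs <;> simp

lemma beta_one_neg (k : ℕ) : beta 1 (-(k + 1 : ℕ)) = 0 := by
  have hrec : ∀ i : ℕ, beta 1 (-(k + 1 : ℕ)) = (1 / 2) ^ i * beta 1 (-(k + 1 + i : ℕ)) := by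
    intro i
    induction i with
    | zero => simp
    | succ i ih =>
      rw [ih]
      have h := beta_rec (-(k + 1 + i : ℕ))
      rw [if_neg (by omega), if_neg (by omega)] at h
      have h2 : (-(k + 1 + i : ℕ) : ℤ) - 1 = -(k + 1 + (i + 1) : ℕ) := by push_cast; ring
      rw [h2] at h
      rw [pow_succ]
      linear_combination (1 / 2 : ℂ) ^ i * (1 / 2) * h
  have hb : ∀ i : ℕ, ‖beta 1 (-(k + 1 : ℕ))‖ ≤ (1 / 2 : ℝ) ^ i := by
    intro i
    rw [hrec i, norm_mul, norm_pow]
    have h1 := beta_norm_le 1 (-(k + 1 + i : ℕ))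
    have h2 : ‖(1 / 2 : ℂ)‖ = 1 / 2 := by norm_num
    rw [h2]
    calc (1 / 2 : ℝ) ^ i * ‖beta 1 (-(k + 1 + i : ℕ))‖ ≤ (1 / 2 : ℝ) ^ i * 1 := by gcongr
      _ = _ := by ring
  have hlim : Filter.Tendsto (fun i : ℕ => (1 / 2 : ℝ) ^ i) Filter.atTop (nhds 0) :=
    tendsto_pow_atTop_nhds_zero_of_lt_one (by norm_num) (by norm_num)
  have : ‖beta 1 (-(k + 1 : ℕ))‖ ≤ 0 := ge_of_tendsto' hlim hb
  exact norm_le_zero_iff.1 this

lemma beta_one_of_neg {m : ℤ} (hm : m < 0) : beta 1 m = 0 := by
  obtain ⟨k, hk⟩ : ∃ k : ℕ, m = -(k + 1 : ℕ) := ⟨(-m - 1).toNat, by omega⟩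
  rw [hk]; exact beta_one_neg k

lemma beta_one_zero : beta 1 0 = -1 / 2 := by
  have h := beta_rec 0
  rw [beta_one_of_neg (by norm_num : (0 : ℤ) - 1 < 0)] at h
  norm_num at h
  linear_combination h / 2

lemma beta_one_one : beta 1 1 = 3 / 4 := by
  have h := beta_rec 1
  norm_num [beta_one_zero] at h
  linear_combination h / 2

lemma beta_one_two : beta 1 2 = 3 / 8 := by
  have h := beta_rec 2
  norm_num [beta_one_one] at h
  linear_combination h / 2

lemma beta_one_three : beta 1 3 = 3 / 16 := by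
  have h := beta_rec 3
  norm_num [beta_one_two] at h
  linear_combination h / 2

lemma beta_neg_one (m : ℤ) : beta (-1) m = conj (beta 1 (-m)) := by
  rw [← beta_neg, neg_neg]

lemma pow_sub_pow_le {u v : ℂ} (hu : ‖u‖ = 1) (hv : ‖v‖ = 1) (n : ℕ) :
    ‖u ^ n - v ^ n‖ ≤ n * ‖u - v‖ := by
  induction n with
  | zero => simp
  | succ n ih =>
    have : u ^ (n + 1) - v ^ (n + 1) = u * (u ^ n - v ^ n) + (u - v) * v ^ n := by ring
    rw [this]
    refine (norm_add_le _ _).trans ?_
    rw [norm_mul, norm_mul, hu, norm_pow, hv, one_pow, one_mul, mul_one]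
    push_cast
    linarith

lemma e_natCast (n : ℕ) (x : UnitAddCircle) : e n x = (e 1 x) ^ n := by
  induction n with
  | zero => simp [e_zero]
  | succ n ih => rw [Nat.cast_succ, e_add, ih, pow_succ]

lemma e_sub_le (j : ℤ) (x y : UnitAddCircle) : ‖e j x - e j y‖ ≤ |(j : ℝ)| * ‖e 1 x - e 1 y‖ := by
  rcases Int.eq_nat_or_neg j with ⟨n, rfl | rfl⟩
  · rw [e_natCast, e_natCast]
    refine (pow_sub_pow_le (norm_e 1 x) (norm_e 1 y) n).trans ?_
    simp
  · rw [e_neg, e_neg, ← map_sub, Complex.norm_conj, e_natCast, e_natCast]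
    refine (pow_sub_pow_le (norm_e 1 x) (norm_e 1 y) n).trans ?_
    simp

lemma s_lip (x y : UnitAddCircle) : ‖e 1 (s x) - e 1 (s y)‖ ≤ 3 * ‖e 1 x - e 1 y‖ := by
  have hx := e_s x
  have hy := e_s y
  have n1 : 1 ≤ ‖2 - e 1 x‖ := by
    have := norm_sub_norm_le (2 : ℂ) (e 1 x)
    rw [norm_e] at this
    norm_num at this
    linarith
  have n2 : 1 ≤ ‖2 - e 1 y‖ := by
    have := norm_sub_norm_le (2 : ℂ) (e 1 y)
    rw [norm_e] at this
    norm_num at this
    linarith
  have hid : (e 1 (s x) - e 1 (s y)) * ((2 - e 1 x) * (2 - e 1 y)) = 3 * (e 1 x - e 1 y) := by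
    linear_combination (2 - e 1 y) * hx - (2 - e 1 x) * hy
  have hn := congrArg norm hid
  rw [norm_mul, norm_mul, norm_mul] at hn
  have h3 : ‖(3 : ℂ)‖ = 3 := by norm_num
  rw [h3] at hn
  rw [← hn]
  have : 1 ≤ ‖2 - e 1 x‖ * ‖2 - e 1 y‖ := by nlinarith
  have h0 := norm_nonneg (e 1 (s x) - e 1 (s y))
  nlinarith

lemma e_one_sub_one (t : ℝ) : ‖1 - e 1 (t : UnitAddCircle)‖ ≤ 2 * π * |t| := by
  rw [e_coe, norm_sub_rev]
  have : (2 * π * Complex.I * ((1 : ℤ) : ℂ) * (t : ℂ)) = Complex.I * ((2 * π * t : ℝ) : ℂ) := by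
    push_cast; ring
  rw [this]
  refine (Real.norm_exp_I_mul_ofReal_sub_one_le).trans ?_
  rw [Real.norm_eq_abs, abs_mul, abs_of_pos (by positivity : (0 : ℝ) < 2 * π)]

lemma beta_decay (j m : ℤ) : |(m : ℝ)| * ‖beta j m‖ ≤ 5 * |(j : ℝ)| := by
  rcases eq_or_ne m 0 with rfl | hm
  · simp
  have hm' : -m ≠ 0 := by omega
  set t : ℝ := 1 / 2 / ((-m : ℤ) : ℝ) with ht
  have hmr : (0 : ℝ) < |(m : ℝ)| := by positivity
  have habs : |t| = 1 / (2 * |(m : ℝ)|) := by
    rw [ht, abs_div, abs_of_pos (by norm_num : (0 : ℝ) < 1 / 2)]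
    push_cast
    rw [abs_neg]
    field_simp
  have hhalf : ∀ x : UnitAddCircle, e (-m) (x + (t : UnitAddCircle)) = - e (-m) x := by
    intro x
    exact fourier_add_half_inv_index hm' one_pos x
  have h1 : beta j m = ∫ x : UnitAddCircle, e (-m) (x + (t : UnitAddCircle)) * e j (s (x + (t : UnitAddCircle))) := by
    unfold beta
    exact (integral_add_right_eq_self (fun x : UnitAddCircle => e (-m) x * e j (s x)) (t : UnitAddCircle)).symm
  have c1 : Continuous (fun x => e (-m) x * e j (s x)) :=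
    (continuous_e _).mul ((continuous_e _).comp continuous_s)
  have c2 : Continuous (fun x : UnitAddCircle => e (-m) x * e j (s (x + (t : UnitAddCircle)))) :=
    (continuous_e _).mul ((continuous_e _).comp (continuous_s.comp (continuous_id.add continuous_const)))
  have h2 : 2 * beta j m = ∫ x : UnitAddCircle, e (-m) x * (e j (s x) - e j (s (x + (t : UnitAddCircle)))) := by
    have h3 : beta j m = - ∫ x : UnitAddCircle, e (-m) x * e j (s (x + (t : UnitAddCircle))) := by
      rw [h1, ← integral_neg]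
      congr 1
      ext x
      rw [hhalf]; ring
    have h4 : 2 * beta j m = (∫ x : UnitAddCircle, e (-m) x * e j (s x)) -
        ∫ x : UnitAddCircle, e (-m) x * e j (s (x + (t : UnitAddCircle))) := by
      have h5 : beta j m = ∫ x : UnitAddCircle, e (-m) x * e j (s x) := rfl
      linear_combination h5 + h3
    rw [h4, ← integral_sub (integrable_of_cont c1) (integrable_of_cont c2)]
    congr 1
    ext x
    ring
  have h5 : ‖2 * beta j m‖ ≤ |(j : ℝ)| * (3 * (2 * π * |t|)) := by
    rw [h2]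
    refine (norm_integral_le_of_norm_le_const (C := |(j : ℝ)| * (3 * (2 * π * |t|))) ?_).trans ?_
    · filter_upwards with x
      rw [norm_mul, norm_e, one_mul]
      refine (e_sub_le _ _ _).trans ?_
      gcongr
      refine (s_lip _ _).trans ?_
      gcongr
      have : e 1 x - e 1 (x + (t : UnitAddCircle)) = e 1 x * (1 - e 1 (t : UnitAddCircle)) := by
        rw [e_add_arg]; ring
      rw [this, norm_mul, norm_e, one_mul]
      exact e_one_sub_one t
    · simp
  rw [norm_mul, habs] at h5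
  have h2n : ‖(2 : ℂ)‖ = 2 := by norm_num
  rw [h2n] at h5
  have h6 : |(m : ℝ)| * (2 * ‖beta j m‖) ≤ |(m : ℝ)| * (|(j : ℝ)| * (3 * (2 * π * (1 / (2 * |(m : ℝ)|))))) := by
    gcongr
  have h7 : |(m : ℝ)| * (|(j : ℝ)| * (3 * (2 * π * (1 / (2 * |(m : ℝ)|))))) = 3 * π * |(j : ℝ)| := by
    field_simp
  rw [h7] at h6
  have hpi : π ≤ 3.15 := pi_lt_d2.le
  have hj : 0 ≤ |(j : ℝ)| := abs_nonneg _
  nlinarith

end Pool.Agent.X125.PD
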