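import Pool.Agent.X125.PD.Shear

/-!
The composition operators on `L²(T²)` and their matrix elements.
-/

noncomputable section

namespace Pool.Agent.X125.PD

open Real MeasureTheory AddCircle UnitAddTorus
open scoped ComplexConjugate

local instance : MeasureSpace UnitAddCircle := ⟨AddCircle.haarAddCircle⟩

local instance : Measure.IsAddHaarMeasure (volume : Measure UnitAddCircle) :=
  inferInstanceAs (Measure.IsAddHaarMeasure AddCircle.haarAddCircle)

local instance : IsProbabilityMeasure (volume : Measure UnitAddCircle) :=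
  inferInstanceAs (IsProbabilityMeasure AddCircle.haarAddCircle)

/-- The two-dimensional torus. -/
abbrev T2 := UnitAddTorus (Fin 2)

/-- `L²` of the torus. -/
abbrev H := Lp ℂ 2 (volume : Measure T2)

/-- The characters of the torus. -/
def ee (k : Fin 2 → ℤ) (x : T2) : ℂ := e (k 0) (x 0) * e (k 1) (x 1)

lemma mFourier_eq (k : Fin 2 → ℤ) (x : T2) : mFourier k x = ee k x := by
  simp only [mFourier, ContinuousMap.coe_mk, Fin.prod_univ_two]
  rfl

lemma ee_neg (k : Fin 2 → ℤ) (x : T2) : ee (-k) x = conj (ee k x) := by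
  simp [ee, e_neg]

/-- The Fourier basis of `L²(T²)`. -/
abbrev E (k : Fin 2 → ℤ) : H := mFourierLp 2 k

/-- The composition operator with a measure preserving map. -/
def comp (ψ : T2 → T2) (h : MeasurePreserving ψ volume volume) : H →ₗᵢ[ℂ] H :=
  Lp.compMeasurePreservingₗᵢ ℂ ψ h

lemma comp_apply (ψ : T2 → T2) (h : MeasurePreserving ψ volume volume) (f : H) :
    comp ψ h f = Lp.compMeasurePreserving ψ h f := rfl

lemma comp_ae (ψ : T2 → T2) (h : MeasurePreserving ψ volume volume) (f : H) :
    comp ψ h f =ᵐ[volume] f ∘ ψ := Lp.coeFn_compMeasurePreserving f h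

lemma comp_E_ae (ψ : T2 → T2) (h : MeasurePreserving ψ volume volume) (k : Fin 2 → ℤ) :
    comp ψ h (E k) =ᵐ[volume] fun x => ee k (ψ x) := by
  have h1 := comp_ae ψ h (E k)
  have h2 : (E k : T2 → ℂ) =ᵐ[volume] mFourier k := coeFn_mFourierLp 2 k
  have h3 := h.quasiMeasurePreserving.ae_eq_comp h2
  filter_upwards [h1, h3] with x a b
  rw [a, b]
  exact mFourier_eq k (ψ x)

lemma inner_comp (ψ : T2 → T2) (h : MeasurePreserving ψ volume volume) (k l : Fin 2 → ℤ) :
    inner ℂ (E l) (comp ψ h (E k)) = ∫ x : T2, ee (-l) x * ee k (ψ x) := by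
  rw [MeasureTheory.L2.inner_def]
  apply integral_congr_ae
  filter_upwards [comp_E_ae ψ h k, coeFn_mFourierLp 2 l] with x a b
  rw [a]
  change inner ℂ ((E l : T2 → ℂ) x) _ = _
  rw [b, mFourier_eq, ee_neg, RCLike.inner_apply, mul_comm]

lemma comp_comp_apply (ψ χ : T2 → T2) (h : MeasurePreserving ψ volume volume)
    (h' : MeasurePreserving χ volume volume) (f : H) :
    comp (ψ ∘ χ) (h.comp h') f = comp χ h' (comp ψ h f) :=
  Lp.compMeasurePreserving_comp_apply f h h'

lemma integral_prod_two (F G : UnitAddCircle → ℂ) :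
    ∫ x : T2, F (x 0) * G (x 1) = (∫ x : UnitAddCircle, F x) * ∫ x : UnitAddCircle, G x := by
  have h := MeasureTheory.integral_fintype_prod_volume_eq_prod (𝕜 := ℂ) (ι := Fin 2)
    (E := fun _ => UnitAddCircle) (![F, G])
  simpa [Fin.prod_univ_two] using h

/-- The linear map `A (x, y) = (y, -x + 3 y)`. -/
def A (x : T2) : T2 := ![x 1, -x 0 + (3 : ℤ) • x 1]

/-- The shear `S (x, y) = (x, y + s x)`. -/
def S (x : T2) : T2 := ![x 0, x 1 + s (x 0)]

/-- The inverse shear. -/
def S' (x : T2) : T2 := ![x 0, x 1 - s (x 0)]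

lemma S_S' (x : T2) : S (S' x) = x := by
  ext i; fin_cases i <;> simp [S, S']

lemma S'_S (x : T2) : S' (S x) = x := by
  ext i; fin_cases i <;> simp [S, S']

lemma continuous_vec {f g : T2 → UnitAddCircle} (hf : Continuous f) (hg : Continuous g) :
    Continuous (fun x => (![f x, g x] : T2)) := by
  apply continuous_pi
  intro i
  fin_cases i
  · exact hf
  · exact hg

lemma continuous_A : Continuous A := by
  apply continuous_vec (continuous_apply 1)
  exact (continuous_apply 0).neg.add ((continuous_zsmul (3 : ℤ)).comp (continuous_apply 1))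

lemma continuous_S : Continuous S := by
  apply continuous_vec (continuous_apply 0)
  exact (continuous_apply 1).add (continuous_s.comp (continuous_apply 0))

lemma continuous_S' : Continuous S' := by
  apply continuous_vec (continuous_apply 0)
  exact (continuous_apply 1).sub (continuous_s.comp (continuous_apply 0))

/-- `A` as a homomorphism. -/
def Ahom : T2 →+ T2 where
  toFun := A
  map_zero' := by ext i; fin_cases i <;> simp [A]
  map_add' x y := by
    ext i; fin_cases i
    · simp [A]
    · simp only [A, Fin.mk_one, Matrix.cons_val_one, Matrix.cons_val_fin_one, Pi.add_apply, smul_add,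
        neg_add]
      abel

lemma A_surj : Function.Surjective A := by
  intro y
  refine ⟨![(3 : ℤ) • y 0 - y 1, y 0], ?_⟩
  ext i; fin_cases i
  · simp [A]
  · simp only [A, Fin.mk_one, Matrix.cons_val_one, Matrix.cons_val_fin_one, Matrix.cons_val_zero]
    abel

lemma mp_A : MeasurePreserving A (volume : Measure T2) volume := by
  have : (volume : Measure T2).IsAddHaarMeasure := by
    change (Measure.pi fun _ => (volume : Measure UnitAddCircle)).IsAddHaarMeasure
    infer_instance
  exact AddMonoidHom.measurePreserving (f := Ahom) continuous_A A_surj rfl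

lemma mp_skew (t : UnitAddCircle → UnitAddCircle) (ht : Continuous t) :
    MeasurePreserving (fun x : T2 => (![x 0, x 1 + t (x 0)] : T2)) volume volume := by
  have h1 := volume_preserving_finTwoArrow UnitAddCircle
  have h2 : MeasurePreserving (fun p : UnitAddCircle × UnitAddCircle => (p.1, p.2 + t p.1))
      volume volume := by
    refine MeasurePreserving.skew_product (MeasurePreserving.id _) (g := fun a b => b + t a) ?_ ?_
    · exact (continuous_snd.add (ht.comp continuous_fst)).measurable
    · filter_upwards with a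
      exact (measurePreserving_add_right volume (t a)).map_eq
  have h3 := (h1.symm _).comp (h2.comp h1)
  convert! h3 using 1

lemma mp_S : MeasurePreserving S (volume : Measure T2) volume := mp_skew s continuous_s

lemma mp_S' : MeasurePreserving S' (volume : Measure T2) volume := by
  have := mp_skew (fun x => - s x) continuous_s.neg
  simpa only [← sub_eq_add_neg] using! this

/-- The matrix elements of `f ↦ f ∘ S'`. -/
def v (p k : Fin 2 → ℤ) : ℂ := if p 1 = k 1 then beta (-k 1) (p 0 - k 0) else 0

lemma inner_V (p k : Fin 2 → ℤ) : inner ℂ (E p) (comp S' mp_S' (E k)) = v p k := by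
  rw [inner_comp]
  have h1 : ∀ x : T2, ee (-p) x * ee k (S' x) =
      (e (-(p 0 - k 0)) (x 0) * e (-k 1) (s (x 0))) * e (k 1 - p 1) (x 1) := by
    intro x
    simp only [ee, S', Pi.neg_apply, Matrix.cons_val_zero, Matrix.cons_val_one,
      Matrix.cons_val_fin_one]
    have a1 : e (-(p 0 - k 0)) (x 0) = e (-p 0) (x 0) * e (k 0) (x 0) := by
      rw [← e_add]; congr 1; ring
    have a2 : e (k 1 - p 1) (x 1) = e (-p 1) (x 1) * e (k 1) (x 1) := by
      rw [← e_add]; congr 1; ring
    rw [a1, a2, sub_eq_add_neg, e_add_arg, e_neg_arg]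
    ring
  have h2 : ∫ x : T2, ee (-p) x * ee k (S' x) =
      ∫ x : T2, (fun y => e (-(p 0 - k 0)) y * e (-k 1) (s y)) (x 0) * (fun y => e (k 1 - p 1) y) (x 1) := by
    congr 1
    ext x
    exact h1 x
  rw [h2, integral_prod_two (fun y => e (-(p 0 - k 0)) y * e (-k 1) (s y)) (fun y => e (k 1 - p 1) y),
    integral_e]
  change beta (-k 1) (p 0 - k 0) * _ = _
  unfold v
  by_cases h : p 1 = k 1
  · simp [h]
  · have : ¬ (k 1 - p 1 = 0) := by omega
    simp [h, this]

/-- The action of `A` on frequencies. -/
def tau (k : Fin 2 → ℤ) : Fin 2 → ℤ := ![-k 1, k 0 + 3 * k 1]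

lemma ee_A (k : Fin 2 → ℤ) (x : T2) : ee k (A x) = ee (tau k) x := by
  simp only [ee, A, tau, Matrix.cons_val_zero, Matrix.cons_val_one, Matrix.cons_val_fin_one]
  rw [e_add_arg, e_neg_arg, e_zsmul, e_add, mul_comm (k 1) 3]
  ring

lemma comp_A_E (k : Fin 2 → ℤ) : comp A mp_A (E k) = E (tau k) := by
  apply Lp.ext
  filter_upwards [comp_E_ae A mp_A k, coeFn_mFourierLp 2 (tau k)] with x a b
  rw [a]
  change _ = (E (tau k) : T2 → ℂ) x
  rw [b, mFourier_eq, ee_A]

lemma comp_A_iter (n : ℕ) (k : Fin 2 → ℤ) : ((comp A mp_A)^[n]) (E k) = E (tau^[n] k) := by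
  induction n generalizing k with
  | zero => rfl
  | succ n ih => rw [Function.iterate_succ_apply, comp_A_E, ih, Function.iterate_succ_apply]

/-- The diffeomorphism: a hyperbolic automorphism conjugated by the shear. -/
def phi (x : T2) : T2 := S' (A (S x))

lemma mp_phi : MeasurePreserving phi (volume : Measure T2) volume :=
  mp_S'.comp (mp_A.comp mp_S)

lemma comp_phi (f : H) : comp phi mp_phi f = comp S mp_S (comp A mp_A (comp S' mp_S' f)) := by
  have h1 := comp_comp_apply S' (A ∘ S) mp_S' (mp_A.comp mp_S) f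
  have h2 := comp_comp_apply A S mp_A mp_S (comp S' mp_S' f)
  rw [← h2]
  exact h1

lemma comp_id {ψ : T2 → T2} (h : MeasurePreserving ψ (volume : Measure T2) volume) (hid : ∀ x, ψ x = x)
    (f : H) : comp ψ h f = f := by
  apply Lp.ext
  filter_upwards [comp_ae ψ h f] with x a
  rw [a, Function.comp_apply, hid]

lemma comp_S_S' (f : H) : comp S mp_S (comp S' mp_S' f) = f := by
  rw [← comp_comp_apply S' S mp_S' mp_S f]
  exact comp_id _ S'_S f

lemma comp_S'_S (f : H) : comp S' mp_S' (comp S mp_S f) = f := by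
  rw [← comp_comp_apply S S' mp_S mp_S' f]
  exact comp_id _ S_S' f

lemma comp_phi_iter (n : ℕ) (f : H) :
    ((comp phi mp_phi)^[n]) f = comp S mp_S (((comp A mp_A)^[n]) (comp S' mp_S' f)) := by
  induction n with
  | zero => simp [comp_S_S']
  | succ n ih =>
    rw [Function.iterate_succ_apply', ih, comp_phi, comp_S'_S, ← Function.iterate_succ_apply' (comp A mp_A)]

lemma inner_phi_iter (n : ℕ) (f g : H) :
    inner ℂ g (((comp phi mp_phi)^[n]) f) =
      inner ℂ (comp S' mp_S' g) (((comp A mp_A)^[n]) (comp S' mp_S' f)) := by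
  rw [comp_phi_iter]
  conv_lhs => rw [← comp_S_S' g]
  exact (comp S mp_S).inner_map_map _ _

/-- Iterates of `comp A` as a continuous linear map. -/
def Apow (n : ℕ) : H →L[ℂ] H := (comp A mp_A).toContinuousLinearMap ^ n

lemma Apow_apply (n : ℕ) (f : H) : Apow n f = ((comp A mp_A)^[n]) f := by
  unfold Apow
  induction n generalizing f with
  | zero => simp
  | succ n ih =>
    rw [pow_succ', ContinuousLinearMap.mul_apply, ih, Function.iterate_succ_apply']
    rfl

/-- Matrix elements of the iterates of the composition operator. -/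
lemma hasSum_matrix (n : ℕ) (k l : Fin 2 → ℤ) :
    HasSum (fun p => v p k * conj (v (tau^[n] p) l))
      (inner ℂ (E l) (((comp phi mp_phi)^[n]) (E k))) := by
  have h1 := (mFourierBasis (d := Fin 2)).hasSum_repr (comp S' mp_S' (E k))
  have h2 := h1.mapL (Apow n)
  have h3 := h2.mapL (innerSL ℂ (comp S' mp_S' (E l)))
  rw [inner_phi_iter]
  convert! h3 using 1
  · ext p
    have hr : mFourierBasis.repr (comp S' mp_S' (E k)) p = v p k := by
      rw [HilbertBasis.repr_apply_apply, coe_mFourierBasis]
      exact inner_V p k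
    rw [hr, coe_mFourierBasis]
    simp only [map_smul, smul_eq_mul]
    congr 1
    rw [innerSL_apply_apply, Apow_apply, comp_A_iter, ← inner_conj_symm, inner_V]
  · rw [innerSL_apply_apply, Apow_apply]

end Pool.Agent.X125.PD
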